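import Pool.Agent.R280.HC.Stm

set_option autoImplicit false

open Set Metric MeasureTheory Filter Topology TopologicalSpace
open scoped ENNReal NNReal

universe u

namespace Pool.Agent.R280.HC.C0

open Pool.Agent.R280.HC

theorem main : StmtC0.{u} := by
  intro X _ s hs
  have h0 : (fun U : Set X => (ediam U) ^ s) ∅ = 0 := by
    simp only [ediam_empty]
    exact ENNReal.zero_rpow_of_pos hs
  have key : ∀ E : Set X,
      cont s E = (OuterMeasure.ofFunction (fun U : Set X => (ediam U) ^ s) h0) E := by
    intro E
    rw [OuterMeasure.ofFunction_apply]
    rfl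
  refine ⟨?_, ?_, ?_, ?_⟩
  · intro E F hEF
    rw [key, key]
    exact measure_mono hEF
  · intro E
    rw [key]
    exact OuterMeasure.ofFunction_le E
  · intro E
    simp only [key]
    exact measure_iUnion_le E
  · intro ι J E
    simp only [key]
    exact measure_biUnion_finset_le J E

end Pool.Agent.R280.HC.C0
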