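import Pool.Agent.R280.HC.Stm

set_option autoImplicit false

open Set Metric MeasureTheory Filter Topology TopologicalSpace
open scoped ENNReal NNReal

universe u

namespace Pool.Agent.R280.HC.C0H

open Pool.Agent.R280.HC

theorem main : StmtC0H.{u} := by
  intro X _ s hs E hE
  by_contra hcon
  have hc0 : cont s E = 0 := by
    simpa using hcon
  letI : MeasurableSpace X := borel X
  haveI : BorelSpace X := ⟨rfl⟩
  have htop : μH[s] E = ⊤ := by
    have h1 := hausdorffMeasure_of_lt_dimH (s := E) (d := s.toNNReal) hE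
    rwa [Real.coe_toNNReal s hs.le] at h1
  let r : ℕ → ℝ≥0∞ := fun k => ((k : ℝ≥0∞) + 1)⁻¹
  have hr : Tendsto r atTop (𝓝 0) := by
    have h1 : Tendsto (fun k : ℕ => ((k : ℝ≥0∞))⁻¹) atTop (𝓝 0) := ENNReal.tendsto_inv_nat_nhds_zero
    have h2 := h1.comp (tendsto_add_atTop_nat 1)
    refine h2.congr fun k => ?_
    simp [r, Function.comp]
  have hrpos : ∀ k, 0 < r k := by
    intro k
    apply ENNReal.inv_pos.mpr
    exact ENNReal.add_ne_top.mpr ⟨ENNReal.natCast_ne_top k, ENNReal.one_ne_top⟩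
  have hU : ∀ k, ∃ U : ℕ → Set X, E ⊆ ⋃ n, U n ∧ ∑' n, (ediam (U n)) ^ s < (r k) ^ s := by
    intro k
    have h1 : cont s E < (r k) ^ s := by
      rw [hc0]
      exact ENNReal.rpow_pos_of_nonneg (hrpos k) hs.le
    unfold cont at h1
    rw [iInf_lt_iff] at h1
    obtain ⟨U, hU⟩ := h1
    rw [iInf_lt_iff] at hU
    obtain ⟨h2, h3⟩ := hU
    exact ⟨U, h2, h3⟩
  choose U hU1 hU2 using hU
  have hd : ∀ k n, ediam (U k n) ≤ r k := by
    intro k n
    have h1 : (ediam (U k n)) ^ s ≤ (r k) ^ s :=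
      (ENNReal.le_tsum n).trans (hU2 k).le
    exact (ENNReal.rpow_le_rpow_iff hs).mp h1
  have h2 := Measure.hausdorffMeasure_le_liminf_tsum s E r hr U
    (Eventually.of_forall fun k n => hd k n) (Eventually.of_forall fun k => hU1 k)
  have h3 : liminf (fun k => ∑' n, (ediam (U k n)) ^ s) atTop = 0 := by
    have h4 : Tendsto (fun k => (r k) ^ s) atTop (𝓝 0) := by
      have h5 := (ENNReal.continuous_rpow_const (y := s)).tendsto 0
      rw [ENNReal.zero_rpow_of_pos hs] at h5
      exact h5.comp hr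
    have h6 : Tendsto (fun k => ∑' n, (ediam (U k n)) ^ s) atTop (𝓝 0) :=
      tendsto_of_tendsto_of_tendsto_of_le_of_le tendsto_const_nhds h4
        (fun k => zero_le) (fun k => (hU2 k).le)
    exact h6.liminf_eq
  rw [h3, htop] at h2
  simp at h2

end Pool.Agent.R280.HC.C0H
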