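import Pool.Agent.R280.HC.Stm

/-! # FL: the Frostman lemma for compact sets in metric spaces -/

set_option autoImplicit false

open Set Metric MeasureTheory Filter Topology TopologicalSpace
open scoped ENNReal NNReal

universe u

namespace Pool.Agent.R280.HC.FL

open Pool.Agent.R280.HC

/-- the finite sets of one scale -/
lemma scale (hC0 : StmtC0.{u}) (hSA : StmtSA.{u}) (hSB : StmtSB.{u})
    (X : Type u) [MetricSpace X] (E : Set X) (hE : IsCompact E) (s : ℝ) (hs : 0 < s)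
    (κ : ℝ) (hκ : 0 < κ) (hcont : ENNReal.ofReal κ ≤ cont s E) (R : ℝ) (hR : 0 < R) :
    ∃ P : Finset (X × ℝ), Adm s P ∧ (∀ p ∈ P, p.2 = R ∧ p.1 ∈ E) ∧
      κ ≤ 2 * 60 ^ s * (P.card * R ^ s) := by
  classical
  obtain ⟨hC1, hC2, hC3, hC4⟩ := hC0 X s hs
  obtain ⟨P, hP1, hP2, hP3⟩ := hSA X E hE.isBounded s hs (fun _ => R) (fun _ => hR)
    antitone_const (fun _ => E) (fun _ => le_rfl) 1
  have hP2' : ∀ p ∈ P, p.2 = R ∧ p.1 ∈ E := by
    intro p hp
    obtain ⟨k, -, h1, h2⟩ := hP2 p hp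
    exact ⟨h1, h2⟩
  obtain ⟨J, hJ1, hJ2, hJ3⟩ := hSB X s hs (2 * 6 ^ s) (by positivity) P
    (fun p hp => by rw [(hP2' p hp).1]; exact hR) E (fun y hy => hP3 0 (by norm_num) y hy)
  refine ⟨P, hP1, hP2', ?_⟩
  have hsum : ∑ p ∈ P, p.2 ^ s = P.card * R ^ s := by
    rw [Finset.sum_congr rfl (fun p hp => by rw [(hP2' p hp).1]), Finset.sum_const,
      nsmul_eq_mul]
  rw [hsum] at hJ3
  have h1 : cont s E ≤ ∑ j ∈ J, ENNReal.ofReal (10 ^ s * j.2 ^ s) := by
    refine (hC1 _ _ hJ2).trans ((hC4 (X × ℝ) J (fun j => closedBall j.1 (5 * j.2))).trans ?_)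
    refine Finset.sum_le_sum fun j hj => ?_
    refine (hC2 _).trans ?_
    have hj0 := hJ1 j hj
    have h2 : ediam (closedBall j.1 (5 * j.2)) ≤ ENNReal.ofReal (10 * j.2) := by
      refine ediam_le fun x hx y hy => ?_
      rw [edist_dist]
      apply ENNReal.ofReal_le_ofReal
      have h3 := dist_triangle_right x y j.1
      rw [mem_closedBall] at hx hy
      linarith
    calc ediam (closedBall j.1 (5 * j.2)) ^ s ≤ ENNReal.ofReal (10 * j.2) ^ s :=
          ENNReal.rpow_le_rpow h2 hs.le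
      _ = ENNReal.ofReal (10 ^ s * j.2 ^ s) := by
          rw [ENNReal.ofReal_rpow_of_nonneg (by positivity) hs.le,
            Real.mul_rpow (by norm_num) hj0.le]
  rw [← ENNReal.ofReal_sum_of_nonneg (fun j hj => by have := hJ1 j hj; positivity)] at h1
  have h4 := hcont.trans h1
  rw [ENNReal.ofReal_le_ofReal_iff (Finset.sum_nonneg fun j hj => by
    have := hJ1 j hj; positivity)] at h4
  rw [← Finset.mul_sum] at h4
  have h5 : (60 : ℝ) ^ s = 10 ^ s * 6 ^ s := by
    rw [← Real.mul_rpow (by norm_num) (by norm_num)]; norm_num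
  rw [h5]
  have h6 : (0 : ℝ) ≤ 10 ^ s := by positivity
  calc κ ≤ 10 ^ s * ∑ j ∈ J, j.2 ^ s := h4
    _ ≤ 10 ^ s * (2 * 6 ^ s * (P.card * R ^ s)) := mul_le_mul_of_nonneg_left hJ3 h6
    _ = 2 * (10 ^ s * 6 ^ s) * (P.card * R ^ s) := by ring

/-- the approximating measures -/
lemma approx (hC0 : StmtC0.{u}) (hSA : StmtSA.{u}) (hSB : StmtSB.{u})
    (X : Type u) [MetricSpace X] [MeasurableSpace X] [BorelSpace X] (E : Set X)
    (hE : IsCompact E) (s : ℝ) (hs : 0 < s)
    (κ : ℝ) (hκ : 0 < κ) (hcont : ENNReal.ofReal κ ≤ cont s E) (R : ℝ) (hR : 0 < R) :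
    ∃ M : Measure X, IsProbabilityMeasure M ∧ M Eᶜ = 0 ∧ ∀ (z : X) (r : ℝ), R ≤ r →
      M (ball z r) ≤ ENNReal.ofReal (2 * 60 ^ s / κ * r ^ s) := by
  classical
  obtain ⟨P, hP1, hP2, hP3⟩ := scale hC0 hSA hSB X E hE s hs κ hκ hcont R hR
  have hcard : 0 < P.card := by
    rcases Nat.eq_zero_or_pos P.card with h | h
    · rw [h] at hP3
      simp only [Nat.cast_zero, zero_mul, mul_zero] at hP3
      linarith
    · exact h
  have hcard' : (0 : ℝ) < P.card := by exact_mod_cast hcard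
  have hne : (P.card : ℝ≥0∞) ≠ 0 := by exact_mod_cast hcard.ne'
  have hnt : (P.card : ℝ≥0∞) ≠ ∞ := ENNReal.natCast_ne_top _
  refine ⟨(P.card : ℝ≥0∞)⁻¹ • ∑ p ∈ P, Measure.dirac p.1, ⟨?_⟩, ?_, ?_⟩
  · rw [Measure.smul_apply, Measure.finset_sum_apply, smul_eq_mul]
    simp only [measure_univ, Finset.sum_const, nsmul_eq_mul, mul_one]
    exact ENNReal.inv_mul_cancel hne hnt
  · rw [Measure.smul_apply, Measure.finset_sum_apply, smul_eq_mul]
    have : ∑ p ∈ P, (Measure.dirac p.1 : Measure X) Eᶜ = 0 := by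
      refine Finset.sum_eq_zero fun p hp => ?_
      rw [Measure.dirac_apply' _ hE.isClosed.measurableSet.compl]
      exact indicator_of_notMem (Set.notMem_compl_iff.2 (hP2 p hp).2) _
    rw [this, mul_zero]
  · intro z r hr
    have hr0 : 0 < r := hR.trans_le hr
    have hcount := hP1.count z r hr0
    rw [Measure.smul_apply, Measure.finset_sum_apply, smul_eq_mul]
    set Q := P.filter (fun p => p.1 ∈ closedBall z r ∧ p.2 ≤ r) with hQ
    have h1 : ∑ p ∈ P, (Measure.dirac p.1 : Measure X) (ball z r) ≤ (Q.card : ℝ≥0∞) := by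
      calc ∑ p ∈ P, (Measure.dirac p.1 : Measure X) (ball z r)
          ≤ ∑ p ∈ P, (if p.1 ∈ closedBall z r ∧ p.2 ≤ r then (1 : ℝ≥0∞) else 0) := by
            refine Finset.sum_le_sum fun p hp => ?_
            rw [Measure.dirac_apply' _ isOpen_ball.measurableSet]
            by_cases hpz : p.1 ∈ ball z r
            · rw [if_pos ⟨ball_subset_closedBall hpz, by rw [(hP2 p hp).1]; exact hr⟩,
                indicator_of_mem hpz]
              rfl
            · rw [indicator_of_notMem hpz]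
              exact bot_le
        _ = (Q.card : ℝ≥0∞) := by
            rw [← Finset.sum_filter, Finset.sum_const, nsmul_eq_mul, mul_one]
    have h2 : (Q.card : ℝ) * R ^ s ≤ r ^ s := by
      have : ∑ p ∈ Q, p.2 ^ s = Q.card * R ^ s := by
        rw [Finset.sum_congr rfl (fun p hp => by
          rw [(hP2 p (Finset.mem_filter.1 hp).1).1]), Finset.sum_const, nsmul_eq_mul]
      rw [← this]
      exact hcount
    have hRs : 0 < R ^ s := Real.rpow_pos_of_pos hR s
    have h3 : (Q.card : ℝ) / P.card ≤ 2 * 60 ^ s / κ * r ^ s := by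
      rw [div_mul_eq_mul_div, div_le_div_iff₀ hcard' hκ]
      have h4 : (Q.card : ℝ) * κ ≤ Q.card * (2 * 60 ^ s * (P.card * R ^ s)) :=
        mul_le_mul_of_nonneg_left hP3 (Nat.cast_nonneg _)
      have h5 : (Q.card : ℝ) * R ^ s * (2 * 60 ^ s * P.card) ≤ r ^ s * (2 * 60 ^ s * P.card) :=
        mul_le_mul_of_nonneg_right h2 (by positivity)
      linarith
    calc (P.card : ℝ≥0∞)⁻¹ * ∑ p ∈ P, (Measure.dirac p.1 : Measure X) (ball z r)
        ≤ (P.card : ℝ≥0∞)⁻¹ * Q.card := by gcongr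
      _ = ENNReal.ofReal ((Q.card : ℝ) / P.card) := by
          rw [ENNReal.ofReal_div_of_pos hcard', ENNReal.ofReal_natCast, ENNReal.ofReal_natCast,
            ENNReal.div_eq_inv_mul]
      _ ≤ ENNReal.ofReal (2 * 60 ^ s / κ * r ^ s) := ENNReal.ofReal_le_ofReal h3

theorem main (hC0 : StmtC0.{u}) (hWL : StmtWL.{u}) (hSA : StmtSA.{u}) (hSB : StmtSB.{u}) :
    StmtFL.{u} := by
  intro X _ _ _ E hE s hs κ hκ hcont
  choose M hM1 hM2 hM3 using fun n : ℕ => approx hC0 hSA hSB X E hE s hs κ hκ hcont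
    ((2 : ℝ)⁻¹ ^ n) (by positivity)
  obtain ⟨ν, hν1, hν2, hν3⟩ := hWL X (fun _ => E) (fun _ => hE) antitone_const M hM1 hM2
  refine ⟨ν, hν1, ?_, fun z r hr => ?_⟩
  · rw [iInter_const] at hν2
    exact hν2
  · have h1 : closedBall z r ⊆ ball z (2 * r) := closedBall_subset_ball (by linarith)
    refine (measure_mono h1).trans ?_
    have h2 : (2 * 60 ^ s / κ * (2 * r) ^ s : ℝ) = 2 * 120 ^ s / κ * r ^ s := by
      have : (120 : ℝ) ^ s = 60 ^ s * 2 ^ s := by
        rw [← Real.mul_rpow (by norm_num) (by norm_num)]; norm_num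
      rw [this, Real.mul_rpow (by norm_num) hr.le]
      ring
    rw [← h2]
    refine hν3 _ isOpen_ball _ ?_
    have h3 : Tendsto (fun n : ℕ => (2 : ℝ)⁻¹ ^ n) atTop (𝓝 0) :=
      tendsto_pow_atTop_nhds_zero_of_lt_one (by norm_num) (by norm_num)
    filter_upwards [(tendsto_order.1 h3).2 (2 * r) (by positivity)] with n hn
    exact hM3 n z (2 * r) hn.le

end Pool.Agent.R280.HC.FL
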