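import Pool.Agent.R280.HC.Stm

/-!
# HC: final assembly
-/

set_option autoImplicit false

open Set Metric MeasureTheory Filter Topology TopologicalSpace
open scoped ENNReal NNReal

universe u

namespace Pool.Agent.R280.HC.Fin

theorem main (hL : StmtL.{u}) (hLP : StmtLP.{u}) (hPI : StmtPI.{u})
    (K : Type u) [MetricSpace K] [CompactSpace K] [Nonempty K] (A : Set ℝ≥0∞)
    (hA : AnalyticSet A) (hAD : ∀ a ∈ A, a ≤ dimH (univ : Set K)) :
    ∃ 𝒞 : Set (NonemptyCompacts K), IsCompact 𝒞 ∧
      (fun C : NonemptyCompacts K => dimH (C : Set K)) '' 𝒞 = A := by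
  obtain ⟨p, hp⟩ := hLP K
  refine hPI K (dimH (univ : Set K)) p ?_ A hA hAD
  intro r hr v hv
  rcases hv.lt_or_eq with h | h
  · rw [← hp r hr] at h
    obtain ⟨C, hC, hCc, hCn, hd⟩ := hL K (closedBall p r) isClosed_closedBall.isCompact v h
    refine ⟨⟨⟨insert p C, hCc.insert p⟩, insert_nonempty p C⟩, ?_, ?_, ?_⟩
    · exact mem_insert p C
    · exact insert_subset (mem_closedBall_self hr.le) hC
    · change dimH (insert p C) = v
      rw [insert_eq, dimH_union, dimH_singleton, hd]
      simp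
  · refine ⟨⟨⟨closedBall p r, isClosed_closedBall.isCompact⟩, ⟨p, mem_closedBall_self hr.le⟩⟩,
      ?_, ?_, ?_⟩
    · exact mem_closedBall_self hr.le
    · exact Subset.rfl
    · change dimH (closedBall p r) = v
      rw [hp r hr, h]

end Pool.Agent.R280.HC.Fin
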