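import Pool.Agent.R280.HC.Stm

/-!
GC: small pieces of the set of points that are bad at all small scales have content zero.
-/

set_option autoImplicit false

open Set Metric MeasureTheory Filter Topology TopologicalSpace
open scoped ENNReal NNReal

universe u

namespace Pool.Agent.R280.HC.GC

open Pool.Agent.R280.HC

theorem main (hC0 : StmtC0.{u}) : StmtGC.{u} := by
  intro X _ E s hs k₀ N hNE hbad hN
  obtain ⟨hmono, hdiam, htsum, -⟩ := hC0 X s hs
  have key : ∀ V ⊆ N, 2 * cont s V ≤ (ediam V) ^ s := by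
    intro V hV
    by_cases hd : ediam V = 0
    · have h1 := hdiam V
      rw [hd, ENNReal.zero_rpow_of_pos hs] at h1
      rw [nonpos_iff_eq_zero.1 h1, mul_zero]
      exact zero_le
    have hne : V.Nonempty := by
      rw [nonempty_iff_ne_empty]
      intro h
      rw [h] at hd
      exact hd ediam_empty
    obtain ⟨x, hx⟩ := hne
    have hle : ediam V ≤ ENNReal.ofReal ((2 : ℝ)⁻¹ ^ (k₀ + 1)) := (ediam_mono hV).trans hN
    have hfin : ediam V ≠ ⊤ := ne_top_of_le_ne_top ENNReal.ofReal_ne_top hle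
    set d : ℝ := (ediam V).toReal with hddef
    have hd0 : 0 < d := ENNReal.toReal_pos hd hfin
    have hDd : ediam V = ENNReal.ofReal d := (ENNReal.ofReal_toReal hfin).symm
    have hdle : d ≤ (2 : ℝ)⁻¹ ^ (k₀ + 1) := by
      rw [hDd] at hle
      exact (ENNReal.ofReal_le_ofReal_iff (by positivity)).1 hle
    have hd1 : d ≤ 1 := hdle.trans (pow_le_one₀ (by norm_num) (by norm_num))
    obtain ⟨k, hk1, hk2⟩ := exists_nat_pow_near_of_lt_one hd0 hd1
      (by norm_num : (0 : ℝ) < 2⁻¹) (by norm_num : (2 : ℝ)⁻¹ < 1)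
    have hk : k₀ ≤ k := by
      by_contra hlt
      push Not at hlt
      have h3 : (2 : ℝ)⁻¹ ^ (k₀ + 1) ≤ (2 : ℝ)⁻¹ ^ (k + 1) :=
        pow_le_pow_of_le_one (by norm_num) (by norm_num) (by omega)
      linarith
    have hxbad : x ∉ good s E k := Set.disjoint_left.1 (hbad k hk) (hV hx)
    have hxE : x ∈ E := hNE (hV hx)
    have hlt : cont s (E ∩ closedBall x ((2 : ℝ)⁻¹ ^ k))
        < ENNReal.ofReal (cS s * ((2 : ℝ)⁻¹ ^ k) ^ s) := by
      by_contra hcon
      push Not at hcon
      exact hxbad ⟨hxE, hcon⟩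
    have hsub : V ⊆ E ∩ closedBall x ((2 : ℝ)⁻¹ ^ k) := by
      intro y hy
      refine ⟨hNE (hV hy), ?_⟩
      rw [mem_closedBall]
      have h4 : edist y x ≤ ediam V := edist_le_ediam_of_mem hy hx
      rw [edist_dist, hDd] at h4
      exact ((ENNReal.ofReal_le_ofReal_iff hd0.le).1 h4).trans hk2
    have h5 : cont s V ≤ ENNReal.ofReal (d ^ s / 2) := by
      refine (hmono _ _ hsub).trans (hlt.le.trans (ENNReal.ofReal_le_ofReal ?_))
      have h6 : (2 : ℝ)⁻¹ ^ k ≤ 2 * d := by
        rw [pow_succ] at hk1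
        linarith
      have h7 : ((2 : ℝ)⁻¹ ^ k) ^ s ≤ (2 * d) ^ s := by
        apply Real.rpow_le_rpow (by positivity) h6 hs.le
      have h8 : (2 * d) ^ s = 2 ^ s * d ^ s := Real.mul_rpow (by norm_num) hd0.le
      have h9 : cS s * (2 ^ s * d ^ s) = d ^ s / 2 := by
        unfold cS
        rw [← mul_assoc, ← Real.rpow_add (by norm_num : (0 : ℝ) < 2)]
        have : -(s + 1) + s = -1 := by ring
        rw [this, Real.rpow_neg_one]
        ring
      have hc : 0 ≤ cS s := by unfold cS; positivity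
      calc cS s * ((2 : ℝ)⁻¹ ^ k) ^ s ≤ cS s * (2 * d) ^ s := mul_le_mul_of_nonneg_left h7 hc
        _ = d ^ s / 2 := by rw [h8, h9]
    calc 2 * cont s V ≤ 2 * ENNReal.ofReal (d ^ s / 2) := by gcongr
      _ = ENNReal.ofReal (d ^ s) := by
        have h2 : (2 : ℝ≥0∞) = ENNReal.ofReal 2 := by simp
        rw [h2, ← ENNReal.ofReal_mul (by norm_num)]
        congr 1
        ring
      _ = (ediam V) ^ s := by rw [hDd, ENNReal.ofReal_rpow_of_pos hd0]
  have hfin : cont s N ≠ ⊤ := ne_top_of_le_ne_top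
    (ENNReal.rpow_ne_top_of_nonneg hs.le (ne_top_of_le_ne_top ENNReal.ofReal_ne_top hN)) (hdiam N)
  have h2 : 2 * cont s N ≤ cont s N := by
    refine le_iInf₂ fun U hU => ?_
    calc 2 * cont s N ≤ 2 * cont s (⋃ n, U n ∩ N) := by
          gcongr
          refine hmono _ _ ?_
          rw [← iUnion_inter]
          exact subset_inter hU Subset.rfl
      _ ≤ 2 * ∑' n, cont s (U n ∩ N) := by
          gcongr
          exact htsum _
      _ = ∑' n, 2 * cont s (U n ∩ N) := ENNReal.tsum_mul_left.symm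
      _ ≤ ∑' n, (ediam (U n)) ^ s := ENNReal.tsum_le_tsum fun n =>
          (key _ inter_subset_right).trans
            (ENNReal.rpow_le_rpow (ediam_mono inter_subset_left) hs.le)
  have h3 : cont s N + cont s N ≤ cont s N + 0 := by
    rw [add_zero, ← two_mul]
    exact h2
  have h4 := (ENNReal.add_le_add_iff_left hfin).1 h3
  exact nonpos_iff_eq_zero.1 h4

end Pool.Agent.R280.HC.GC
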