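import Pool.Agent.R280.HC.Stm

set_option autoImplicit false

open Set Metric MeasureTheory Filter Topology TopologicalSpace
open scoped ENNReal NNReal

universe u

namespace Pool.Agent.R280.HC.GD

open Pool.Agent.R280.HC

theorem main (hMU : StmtMU.{u}) (hGC : StmtGC.{u}) : StmtGD.{u} := by
  intro X _ _ _ E hE s A hs μ hμE hF k₀
  set N : Set X := E \ ⋃ k, good s E (k₀ + k) with hN
  have hρ : (0 : ℝ) < (2 : ℝ)⁻¹ ^ (k₀ + 1) / 2 := by positivity
  obtain ⟨t, -, htf, htc⟩ := hE.finite_cover_balls hρ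
  have hpiece : ∀ x ∈ t, μ (N ∩ ball x ((2 : ℝ)⁻¹ ^ (k₀ + 1) / 2)) = 0 := by
    intro x _
    apply hMU X s A hs μ hF
    apply hGC X E s hs k₀
    · exact fun y hy => hy.1.1
    · intro k hk
      rw [Set.disjoint_left]
      intro y hy hy2
      apply hy.1.2
      rw [mem_iUnion]
      refine ⟨k - k₀, ?_⟩
      rwa [Nat.add_sub_cancel' hk]
    · apply ediam_le
      intro y hy z hz
      rw [edist_dist]
      apply ENNReal.ofReal_le_ofReal
      have h1 : dist y x < (2 : ℝ)⁻¹ ^ (k₀ + 1) / 2 := hy.2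
      have h2 : dist z x < (2 : ℝ)⁻¹ ^ (k₀ + 1) / 2 := hz.2
      have h3 := dist_triangle_right y z x
      linarith
  have hN0 : μ N = 0 := by
    apply measure_mono_null (t := ⋃ x ∈ t, (N ∩ ball x ((2 : ℝ)⁻¹ ^ (k₀ + 1) / 2)))
    · intro y hy
      have h1 := htc hy.1
      simp only [mem_iUnion] at h1 ⊢
      obtain ⟨x, hx, hxy⟩ := h1
      exact ⟨x, hx, hy, hxy⟩
    · rw [measure_biUnion_null_iff htf.countable]
      exact hpiece
  apply measure_mono_null (t := Eᶜ ∪ N)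
  · intro y hy
    by_cases h : y ∈ E
    · exact Or.inr ⟨h, hy⟩
    · exact Or.inl h
  · rw [measure_union_null_iff]
    exact ⟨hμE, hN0⟩

end Pool.Agent.R280.HC.GD
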