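import Pool.Agent.R280.HC.Stm

/-!
# Piece L: compact subsets of prescribed dimension
-/

set_option autoImplicit false

open Set Metric MeasureTheory Filter Topology TopologicalSpace
open scoped ENNReal NNReal

universe u

namespace Pool.Agent.R280.HC.L

open Pool.Agent.R280.HC

/-- a compact set of dimension larger than `s` contains a node. -/
lemma exists_node (hC0H : StmtC0H.{u}) (hFL : StmtFL.{u}) (hGD : StmtGD.{u}) (X : Type u)
    [MetricSpace X] (K : Set X) (hK : IsCompact K) (s : ℝ) (hs : 0 < s)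
    (hd : ENNReal.ofReal s < dimH K) : ∃ v : Nd X, IsNode s v ∧ v.E ⊆ K := by
  letI : MeasurableSpace X := borel X
  haveI : BorelSpace X := ⟨rfl⟩
  have hpos := hC0H X s hs K hd
  obtain ⟨κ, -, hκ1, hκ2⟩ := ENNReal.lt_iff_exists_real_btwn.mp hpos
  have hκ : 0 < κ := ENNReal.ofReal_pos.mp hκ1
  obtain ⟨μ, hμ, hμK, hμb⟩ := hFL X K hK s hs κ hκ hκ2.le
  have hg := hGD X K hK s (2 * 120 ^ s / κ) hs μ hμK hμb 0
  have hne : (⋃ k, good s K (0 + k)).Nonempty := by
    by_contra hemp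
    rw [not_nonempty_iff_eq_empty] at hemp
    rw [hemp, compl_empty, measure_univ] at hg
    exact one_ne_zero hg
  obtain ⟨x, hx⟩ := hne
  obtain ⟨k, hk⟩ := mem_iUnion.mp hx
  rw [zero_add] at hk
  have hr : (0 : ℝ) < (2 : ℝ)⁻¹ ^ k := by positivity
  refine ⟨⟨K ∩ closedBall x ((2 : ℝ)⁻¹ ^ k), x, (2 : ℝ)⁻¹ ^ k⟩, ⟨?_, ?_, ?_, hr, hk.2⟩,
    inter_subset_left⟩
  · exact hK.inter_right isClosed_closedBall
  · exact ⟨hk.1, mem_closedBall_self hr.le⟩
  · exact inter_subset_right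

theorem main (hC0H : StmtC0H.{u}) (hFL : StmtFL.{u}) (hGD : StmtGD.{u}) (hND : StmtND.{u})
    (hTR : StmtTR.{u}) : StmtL.{u} := by
  intro X _ K hK t ht
  rcases eq_or_ne t 0 with rfl | ht0
  · have hne : K.Nonempty := by
      by_contra hemp
      rw [not_nonempty_iff_eq_empty] at hemp
      rw [hemp, dimH_empty] at ht
      exact lt_irrefl _ ht
    obtain ⟨x, hx⟩ := hne
    exact ⟨{x}, singleton_subset_iff.mpr hx, isCompact_singleton, singleton_nonempty x,
      dimH_singleton x⟩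
  · have htop : t ≠ ⊤ := (lt_of_lt_of_le ht le_top).ne
    have htr : ENNReal.ofReal t.toReal = t := ENNReal.ofReal_toReal htop
    have htpos : 0 < t.toReal := ENNReal.toReal_pos ht0 htop
    obtain ⟨s, hs0, hs1, hs2⟩ := ENNReal.lt_iff_exists_real_btwn.mp ht
    have hts : t.toReal < s := by
      rw [← htr] at hs1
      exact (ENNReal.ofReal_lt_ofReal_iff_of_nonneg htpos.le).mp hs1
    obtain ⟨v, hv, hvK⟩ := exists_node hC0H hFL hGD X K hK s (htpos.trans hts) hs2
    obtain ⟨C1, hC1, hP⟩ := hND s t.toReal htpos hts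
    obtain ⟨C, hC, hCc, hCn, hCd⟩ := hTR X s t.toReal C1 htpos hC1 (fun w hw δ hδ => hP X w hw δ hδ)
      v hv
    exact ⟨C, hC.trans hvK, hCc, hCn, hCd.trans htr⟩

end Pool.Agent.R280.HC.L
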