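import Pool.Agent.R280.HC.Stm

/-! # LP: a compact metric space has a point of full local Hausdorff dimension -/

set_option autoImplicit false

open Set Metric MeasureTheory Filter Topology TopologicalSpace
open scoped ENNReal NNReal

universe u

namespace Pool.Agent.R280.HC.LP

open Pool.Agent.R280.HC

theorem main : StmtLP.{u} := by
  intro K _ _ hK
  by_contra hcon
  push Not at hcon
  choose r hr hne using hcon
  have hlt : ∀ p, dimH (closedBall p (r p)) < dimH (univ : Set K) := fun p =>
    lt_of_le_of_ne (dimH_mono (subset_univ _)) (hne p)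
  obtain ⟨p₀⟩ := hK
  have h0 : (⊥ : ℝ≥0∞) < dimH (univ : Set K) := lt_of_le_of_lt bot_le (hlt p₀)
  obtain ⟨T, -, hT⟩ := isCompact_univ.elim_nhds_subcover (fun p => closedBall p (r p))
    (fun p _ => closedBall_mem_nhds p (hr p))
  have h1 : dimH (univ : Set K) ≤ dimH (⋃ x ∈ (T : Set K), closedBall x (r x)) := dimH_mono hT
  rw [dimH_bUnion T.countable_toSet] at h1
  have h2 : (⨆ x ∈ (T : Set K), dimH (closedBall x (r x)))
      = T.sup (fun x => dimH (closedBall x (r x))) := by
    rw [Finset.sup_eq_iSup]
    rfl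
  rw [h2] at h1
  exact absurd ((Finset.sup_lt_iff h0).mpr fun x _ => hlt x) (not_lt.mpr h1)

end Pool.Agent.R280.HC.LP
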