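import Pool.Agent.R280.HC.MU

/-!
# The mass distribution principle
-/

set_option autoImplicit false

open Set Metric MeasureTheory Filter Topology TopologicalSpace
open scoped ENNReal NNReal

universe u

namespace Pool.Agent.R280.HC.MD

open Pool.Agent.R280.HC

theorem main : StmtMD.{u} := by
  intro X _ _ _ C μ s A r₀ hs hr₀ h hC
  set A' := |A| + 1 with hA'
  have hA0 : 0 < A' := by positivity
  have h' : ∀ (z : X) (r : ℝ), 0 < r → r < r₀ →
      μ (closedBall z r) ≤ ENNReal.ofReal (A' * r ^ s) :=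
    fun z r hr hr' => (h z r hr hr').trans (MU.bound_abs hr)
  have h0 : ENNReal.ofReal A' ≠ 0 := by simpa using hA0
  have ht : ENNReal.ofReal A' ≠ ⊤ := ENNReal.ofReal_ne_top
  have h1 : (ENNReal.ofReal A')⁻¹ • μ ≤ Measure.hausdorffMeasure s := by
    refine Measure.le_hausdorffMeasure s _ (ENNReal.ofReal (r₀ / 2)) (by simpa using hr₀) ?_
    intro U hU
    have h2 : ediam U < ENNReal.ofReal r₀ :=
      hU.trans_lt ((ENNReal.ofReal_lt_ofReal_iff hr₀).2 (by linarith))
    have h3 := MU.key hs h' h2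
    rw [Measure.smul_apply, smul_eq_mul]
    calc (ENNReal.ofReal A')⁻¹ * μ U
        ≤ (ENNReal.ofReal A')⁻¹ * (ENNReal.ofReal A' * (ediam U) ^ s) := by gcongr
      _ = (ediam U) ^ s := by
          rw [← mul_assoc, ENNReal.inv_mul_cancel h0 ht, one_mul]
  have h4 : (ENNReal.ofReal A')⁻¹ * μ C ≤ Measure.hausdorffMeasure s C := by
    have := h1 C
    rwa [Measure.smul_apply, smul_eq_mul] at this
  have h5 : Measure.hausdorffMeasure s C ≠ 0 := by
    intro h6
    rw [h6, nonpos_iff_eq_zero, mul_eq_zero] at h4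
    rcases h4 with h4 | h4
    · exact ht (ENNReal.inv_eq_zero.1 h4)
    · exact hC.ne' h4
  have h7 : Measure.hausdorffMeasure ((s.toNNReal : ℝ≥0) : ℝ) C ≠ 0 := by
    rwa [Real.coe_toNNReal s hs.le]
  exact le_dimH_of_hausdorffMeasure_ne_zero h7

end Pool.Agent.R280.HC.MD
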