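import Pool.Agent.R280.HC.Stm

/-!
# A Frostman measure is dominated by the content
-/

set_option autoImplicit false

open Set Metric MeasureTheory Filter Topology TopologicalSpace
open scoped ENNReal NNReal

universe u

namespace Pool.Agent.R280.HC.MU

open Pool.Agent.R280.HC

/-- sets of small diameter -/
theorem key {X : Type u} [MetricSpace X] [MeasurableSpace X] [BorelSpace X]
    {s A r₀ : ℝ} (hs : 0 < s) {μ : Measure X}
    (h : ∀ (z : X) (r : ℝ), 0 < r → r < r₀ → μ (closedBall z r) ≤ ENNReal.ofReal (A * r ^ s))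
    {U : Set X} (hU : ediam U < ENNReal.ofReal r₀) :
    μ U ≤ ENNReal.ofReal A * (ediam U) ^ s := by
  rcases U.eq_empty_or_nonempty with he | ⟨x, hx⟩
  · subst he; simp
  have htop : ediam U ≠ ⊤ := (hU.trans ENNReal.ofReal_lt_top).ne
  set d := (ediam U).toReal with hd
  have hd0 : 0 ≤ d := ENNReal.toReal_nonneg
  have hde : ENNReal.ofReal d = ediam U := ENNReal.ofReal_toReal htop
  have hdr : d < r₀ := by
    rw [← hde] at hU
    exact (ENNReal.ofReal_lt_ofReal_iff_of_nonneg hd0).1 hU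
  have h1 : ∀ᶠ ε in 𝓝[>] (0:ℝ), μ U ≤ ENNReal.ofReal (A * (d + ε) ^ s) := by
    have h2 : Iio (r₀ - d) ∈ 𝓝[>] (0:ℝ) := mem_nhdsWithin_of_mem_nhds (Iio_mem_nhds (by linarith))
    filter_upwards [self_mem_nhdsWithin, h2] with ε h0 h3
    have h0' : 0 < ε := h0
    have h3' : ε < r₀ - d := h3
    refine (measure_mono ?_).trans (h x (d + ε) (by linarith) (by linarith))
    intro y hy
    rw [mem_closedBall, dist_edist]
    have h4 : edist y x ≤ ediam U := edist_le_ediam_of_mem hy hx
    have h5 := ENNReal.toReal_mono htop h4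
    linarith
  have h6 : Tendsto (fun ε : ℝ => ENNReal.ofReal (A * (d + ε) ^ s)) (𝓝[>] 0)
      (𝓝 (ENNReal.ofReal (A * d ^ s))) := by
    have h7 : Continuous fun ε : ℝ => ENNReal.ofReal (A * (d + ε) ^ s) := by
      refine ENNReal.continuous_ofReal.comp (continuous_const.mul ?_)
      exact (continuous_const.add continuous_id).rpow_const fun x => Or.inr hs.le
    have h8 := (h7.tendsto 0).mono_left (nhdsWithin_le_nhds (s := Ioi (0:ℝ)))
    simpa using h8
  have h9 : μ U ≤ ENNReal.ofReal (A * d ^ s) := ge_of_tendsto h6 h1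
  rwa [ENNReal.ofReal_mul' (by positivity), ← ENNReal.ofReal_rpow_of_nonneg hd0 hs.le, hde] at h9

theorem bound_abs {s A r : ℝ} (hr : 0 < r) :
    ENNReal.ofReal (A * r ^ s) ≤ ENNReal.ofReal ((|A| + 1) * r ^ s) := by
  refine ENNReal.ofReal_le_ofReal ?_
  refine mul_le_mul_of_nonneg_right ?_ (by positivity)
  linarith [le_abs_self A]

theorem main : StmtMU.{u} := by
  intro X _ _ _ s A hs μ h N hN
  set A' := |A| + 1 with hA'
  have hA0 : 0 < A' := by positivity
  have h' : ∀ (z : X) (r : ℝ), 0 < r → μ (closedBall z r) ≤ ENNReal.ofReal (A' * r ^ s) :=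
    fun z r hr => (h z r hr).trans (bound_abs hr)
  have hk : ∀ U : Set X, μ U ≤ ENNReal.ofReal A' * (ediam U) ^ s := by
    intro U
    rcases eq_or_ne (ediam U) ⊤ with ht | ht
    · rw [ht, ENNReal.top_rpow_of_pos hs, ENNReal.mul_top (by simpa using hA0)]
      exact le_top
    · have h1 : ediam U < ENNReal.ofReal ((ediam U).toReal + 1) := by
        conv_lhs => rw [← ENNReal.ofReal_toReal ht]
        exact (ENNReal.ofReal_lt_ofReal_iff (by positivity)).2 (by linarith)
      exact key hs (fun z r hr _ => h' z r hr) h1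
  have h0 : ENNReal.ofReal A' ≠ 0 := by simpa using hA0
  have ht : ENNReal.ofReal A' ≠ ⊤ := ENNReal.ofReal_ne_top
  have h2 : (ENNReal.ofReal A')⁻¹ * μ N ≤ cont s N := by
    refine le_iInf₂ fun U hU => ?_
    have h3 : μ N ≤ ENNReal.ofReal A' * ∑' n, (ediam (U n)) ^ s := by
      rw [← ENNReal.tsum_mul_left]
      exact (measure_mono hU).trans ((measure_iUnion_le U).trans
        (ENNReal.tsum_le_tsum fun n => hk (U n)))
    calc (ENNReal.ofReal A')⁻¹ * μ N
        ≤ (ENNReal.ofReal A')⁻¹ * (ENNReal.ofReal A' * ∑' n, (ediam (U n)) ^ s) := by gcongr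
      _ = ∑' n, (ediam (U n)) ^ s := by
          rw [← mul_assoc, ENNReal.inv_mul_cancel h0 ht, one_mul]
  rw [hN, nonpos_iff_eq_zero, mul_eq_zero] at h2
  rcases h2 with h2 | h2
  · exact absurd (ENNReal.inv_eq_zero.1 h2) ht
  · exact h2

end Pool.Agent.R280.HC.MU
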