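import Pool.Agent.R280.HC.Stm

/-!
ND: the one-step lemma.
-/

set_option autoImplicit false

open Set Metric MeasureTheory Filter Topology TopologicalSpace
open scoped ENNReal NNReal

universe u

namespace Pool.Agent.R280.HC.ND

open Pool.Agent.R280.HC

theorem main (hC0 : StmtC0.{u}) (hSA : StmtSA.{u}) (hSB : StmtSB.{u}) (hFL : StmtFL.{u})
    (hGD : StmtGD.{u}) : StmtND.{u} := by
  intro s t ht hts
  have hs : 0 < s := ht.trans hts
  have hcS : 0 < cS s := by unfold cS; positivity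
  have hcS1 : cS s ≤ 1 := by
    unfold cS
    exact Real.rpow_le_one_of_one_le_of_nonpos (by norm_num) (by linarith)
  set A : ℝ := 2 * 120 ^ s / cS s with hA
  have hA1 : 1 ≤ A := by
    rw [hA, le_div_iff₀ hcS]
    have : (1 : ℝ) ≤ 120 ^ s := Real.one_le_rpow (by norm_num) hs.le
    linarith
  have h30 : (1 : ℝ) ≤ 30 ^ t := Real.one_le_rpow (by norm_num) ht.le
  refine ⟨4 * 30 ^ t * A, by nlinarith, ?_⟩
  intro X _ v hv δ hδ
  obtain ⟨hcpt, hmem, hsub, hg, hbig⟩ := hv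
  letI : MeasurableSpace X := borel X
  haveI : BorelSpace X := ⟨rfl⟩
  have hκ : 0 < cS s * v.g ^ s := by positivity
  obtain ⟨μ, hμp, hμE, hμ⟩ := hFL X v.E hcpt s hs (cS s * v.g ^ s) hκ hbig
  have hball : ∀ (z : X) (r : ℝ), 0 < r →
      μ (closedBall z r) ≤ ENNReal.ofReal (A * (r / v.g) ^ t) := by
    intro z r hr
    rcases le_or_gt r v.g with hrg | hrg
    · refine (hμ z r hr).trans (ENNReal.ofReal_le_ofReal ?_)
      have e1 : 2 * 120 ^ s / (cS s * v.g ^ s) * r ^ s = A * (r / v.g) ^ s := by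
        rw [hA, Real.div_rpow hr.le hg.le]
        field_simp
      rw [e1]
      refine mul_le_mul_of_nonneg_left ?_ (by linarith)
      exact Real.rpow_le_rpow_of_exponent_ge (by positivity) ((div_le_one hg).2 hrg) hts.le
    · have h1 : (1 : ℝ) ≤ A * (r / v.g) ^ t := by
        have : (1 : ℝ) ≤ (r / v.g) ^ t :=
          Real.one_le_rpow ((one_le_div hg).2 hrg.le) ht.le
        nlinarith
      calc μ (closedBall z r) ≤ 1 := prob_le_one
        _ = ENNReal.ofReal 1 := by simp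
        _ ≤ _ := ENNReal.ofReal_le_ofReal h1
  obtain ⟨k₀, hk₀⟩ := exists_pow_lt_of_lt_one (lt_min hδ hg) (by norm_num : (2 : ℝ)⁻¹ < 1)
  have hgd := hGD X v.E hcpt s (2 * 120 ^ s / (cS s * v.g ^ s)) hs μ hμE hμ k₀
  -- choose `n`
  set F : ℕ → Set X := fun n => ⋃ k, ⋃ (_ : k < n), good s v.E (k₀ + k) with hF
  have hFmono : Monotone F := by
    intro a b hab x hx
    simp only [hF, mem_iUnion] at hx ⊢
    obtain ⟨k, hk, hxk⟩ := hx
    exact ⟨k, hk.trans_le hab, hxk⟩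
  have hFun : ⋃ n, F n = ⋃ k, good s v.E (k₀ + k) := by
    ext x
    simp only [hF, mem_iUnion]
    constructor
    · rintro ⟨n, k, _, hx⟩
      exact ⟨k, hx⟩
    · rintro ⟨k, hx⟩
      exact ⟨k + 1, k, Nat.lt_succ_self k, hx⟩
  have hn : ∃ n, ENNReal.ofReal (1 / 2) ≤ μ (F n) := by
    by_contra hcon
    push Not at hcon
    have h1 : μ (⋃ n, F n) = ⨆ n, μ (F n) := hFmono.measure_iUnion
    have h2 : μ (⋃ n, F n) ≤ ENNReal.ofReal (1 / 2) := by
      rw [h1]
      exact iSup_le fun n => (hcon n).le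
    have h3 : (1 : ℝ≥0∞) ≤ ENNReal.ofReal (1 / 2) := by
      calc (1 : ℝ≥0∞) = μ univ := (measure_univ).symm
        _ ≤ μ ((⋃ n, F n) ∪ (⋃ n, F n)ᶜ) := by rw [union_compl_self]
        _ ≤ μ (⋃ n, F n) + μ (⋃ n, F n)ᶜ := measure_union_le _ _
        _ = μ (⋃ n, F n) := by rw [hFun, hgd, add_zero]
        _ ≤ _ := h2
    rw [← ENNReal.ofReal_one] at h3
    have := (ENNReal.ofReal_le_ofReal_iff (by norm_num)).1 h3
    norm_num at this
  obtain ⟨n, hn⟩ := hn
  obtain ⟨P, hAdm, hP, hheavy⟩ := hSA X v.E hcpt.isBounded t ht (fun k => (2 : ℝ)⁻¹ ^ (k₀ + k))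
    (fun k => by positivity)
    (fun a b hab => pow_le_pow_of_le_one (by norm_num) (by norm_num) (by omega))
    (fun k => good s v.E (k₀ + k)) (fun k x hx => hx.1) n
  obtain ⟨J, hJpos, hJcov, hJsum⟩ := hSB X t ht (2 * 6 ^ t) (by positivity) P hAdm.pos (F n) (by
    intro y hy
    simp only [hF, mem_iUnion] at hy
    obtain ⟨k, hk, hyk⟩ := hy
    exact hheavy k hk y hyk)
  have hPle : ∀ p ∈ P, p.2 ≤ (2 : ℝ)⁻¹ ^ k₀ := by
    intro p hp
    obtain ⟨k, _, hpk, _⟩ := hP p hp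
    rw [hpk]
    exact pow_le_pow_of_le_one (by norm_num) (by norm_num) (by omega)
  refine ⟨P, hAdm, ?_, ?_, ?_, ?_⟩
  · intro p hp
    exact (hPle p hp).trans (hk₀.le.trans (min_le_left _ _))
  · intro p hp
    exact (hPle p hp).trans (hk₀.le.trans (min_le_right _ _))
  · intro p hp
    obtain ⟨k, _, hpk, hpG⟩ := hP p hp
    refine ⟨?_, ?_, ?_, ?_, ?_⟩
    · exact hcpt.inter_right isClosed_closedBall
    · exact ⟨hpG.1, mem_closedBall_self (hAdm.pos p hp).le⟩
    · exact inter_subset_right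
    · exact hAdm.pos p hp
    · simp only [child]
      rw [hpk]
      exact hpG.2
  · -- mass
    have hJr : ∀ j ∈ J, μ (closedBall j.1 (5 * j.2)) ≤
        ENNReal.ofReal (A * 5 ^ t / v.g ^ t * j.2 ^ t) := by
      intro j hj
      have hj0 := hJpos j hj
      refine (hball j.1 (5 * j.2) (by positivity)).trans (ENNReal.ofReal_le_ofReal (le_of_eq ?_))
      rw [Real.div_rpow (by positivity) hg.le, Real.mul_rpow (by norm_num) hj0.le]
      ring
    have h1 : ENNReal.ofReal (1 / 2) ≤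
        ENNReal.ofReal (∑ j ∈ J, A * 5 ^ t / v.g ^ t * j.2 ^ t) := by
      calc ENNReal.ofReal (1 / 2) ≤ μ (F n) := hn
        _ ≤ μ (⋃ j ∈ J, closedBall j.1 (5 * j.2)) := measure_mono hJcov
        _ ≤ ∑ j ∈ J, μ (closedBall j.1 (5 * j.2)) := measure_biUnion_finset_le _ _
        _ ≤ ∑ j ∈ J, ENNReal.ofReal (A * 5 ^ t / v.g ^ t * j.2 ^ t) := Finset.sum_le_sum hJr
        _ = _ := by
          rw [ENNReal.ofReal_sum_of_nonneg]
          intro j hj
          have := hJpos j hj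
          positivity
    have h2 : (1 : ℝ) / 2 ≤ ∑ j ∈ J, A * 5 ^ t / v.g ^ t * j.2 ^ t := by
      refine (ENNReal.ofReal_le_ofReal_iff ?_).1 h1
      exact Finset.sum_nonneg fun j hj => by
        have := hJpos j hj
        positivity
    rw [← Finset.mul_sum] at h2
    have h3 : A * 5 ^ t / v.g ^ t * ∑ j ∈ J, j.2 ^ t
        ≤ A * 5 ^ t / v.g ^ t * (2 * 6 ^ t * ∑ p ∈ P, p.2 ^ t) :=
      mul_le_mul_of_nonneg_left hJsum (by positivity)
    have h4 : (5 : ℝ) ^ t * 6 ^ t = 30 ^ t := by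
      rw [← Real.mul_rpow (by norm_num) (by norm_num)]
      norm_num
    have h5 : A * 5 ^ t / v.g ^ t * (2 * 6 ^ t * ∑ p ∈ P, p.2 ^ t)
        = 2 * A * 30 ^ t * (∑ p ∈ P, p.2 ^ t) / v.g ^ t := by
      rw [← h4]
      ring
    have h6 : (1 : ℝ) / 2 ≤ 2 * A * 30 ^ t * (∑ p ∈ P, p.2 ^ t) / v.g ^ t := by
      rw [← h5]
      exact h2.trans h3
    have hgt : 0 < v.g ^ t := by positivity
    rw [le_div_iff₀ hgt] at h6
    have h7 : v.g ^ t ≤ 4 * 30 ^ t * A * ∑ p ∈ P, p.2 ^ t := by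
      linarith
    exact h7

end Pool.Agent.R280.HC.ND
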