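import Pool.Agent.R280.HC.Stm

set_option autoImplicit false

open Set Metric MeasureTheory Filter Topology TopologicalSpace
open scoped ENNReal NNReal

universe u

namespace Pool.Agent.R280.HC.NT

open Pool.Agent.R280.HC

theorem main : StmtNT.{u} := by
  intro K _ _ p C hp
  have hρ : ∀ k : ℕ, (0 : ℝ) < 1 / ((k : ℝ) + 1) := fun k => by positivity
  have h1 : ∀ k : ℕ, ∃ t ⊆ (C : Set K), t.Finite ∧ (C : Set K) ⊆ ⋃ x ∈ t, ball x (1 / ((k : ℝ) + 1)) :=
    fun k => C.isCompact.finite_cover_balls (hρ k)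
  choose t htC htf htc using h1
  let N : ℕ → NonemptyCompacts K := fun k =>
    ⟨⟨insert p (t k), ((htf k).insert p).isCompact⟩, ⟨p, mem_insert _ _⟩⟩
  have hN : ∀ k, (N k : Set K) = insert p (t k) := fun k => rfl
  have hpC : p ∈ (C : Set K) := hp
  refine ⟨N, fun k => ⟨?_, ?_, ?_⟩, ?_⟩
  · rw [hN]
    exact (htf k).insert p
  · change p ∈ (N k : Set K)
    rw [hN]
    exact mem_insert _ _
  · rw [hN]
    exact insert_subset hpC (htC k)
  · rw [tendsto_iff_dist_tendsto_zero]
    apply squeeze_zero (fun k => dist_nonneg) (g := fun k : ℕ => 1 / ((k : ℝ) + 1))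
    · intro k
      rw [Metric.NonemptyCompacts.dist_eq]
      apply hausdorffDist_le_of_mem_dist (hρ k).le
      · intro x hx
        rw [hN] at hx
        refine ⟨x, insert_subset hpC (htC k) hx, ?_⟩
        rw [dist_self]
        exact (hρ k).le
      · intro x hx
        have h2 := htc k hx
        simp only [mem_iUnion] at h2
        obtain ⟨y, hy, hxy⟩ := h2
        refine ⟨y, ?_, (mem_ball.mp hxy).le⟩
        rw [hN]
        exact mem_insert_of_mem _ hy
    · exact tendsto_one_div_add_atTop_nhds_zero_nat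

end Pool.Agent.R280.HC.NT
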