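import Pool.Agent.R280.HC.Stm

/-!
# MP_65ee2d_an: piece PC (continuity of the pieces)
-/

set_option autoImplicit false

open Set Metric MeasureTheory Filter Topology TopologicalSpace
open scoped ENNReal NNReal

universe u

namespace Pool.Agent.R280.HC.PC

open Pool.Agent.R280.HC

lemma continuous_G {Z : Type u} [TopologicalSpace Z] (e : Z) (N : ℕ → Z)
    (h : Tendsto N atTop (𝓝 e)) :
    Continuous (fun a : ℕ∞ => if a = ⊤ then e else N a.toNat) := by
  rw [continuous_iff_continuousAt]
  intro a
  by_cases ha : a = ⊤
  · subst ha
    rw [ContinuousAt, if_pos rfl]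
    intro U hU
    have h1 := h hU
    rw [mem_map, mem_atTop_sets] at h1
    obtain ⟨k, hk⟩ := h1
    rw [mem_map]
    filter_upwards [Ioi_mem_nhds (ENat.natCast_lt_top k)] with b hb
    by_cases hb' : b = ⊤
    · simp [hb', mem_of_mem_nhds hU]
    · simp only [mem_preimage, if_neg hb']
      apply hk
      have hb2 : (k:ℕ∞) < b := hb
      lift b to ℕ using hb'
      simp only [ENat.toNat_natCast]
      exact_mod_cast hb2.le
  · rw [ContinuousAt, ENat.nhds_eq_pure ha]
    exact tendsto_pure_nhds _ _

theorem main : StmtPC.{u} := by
  classical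
  intro K _ _ p m M E N hM hE hN hM2 hE2 hN2 hT
  rw [continuous_iff_continuousAt]
  intro y
  by_cases hy : ∀ i < m, y i ≠ ⊤
  · have hnb : ∀ᶠ y' in 𝓝 y, ∀ i < m, y' i = y i := by
      have h0 : ∀ i ∈ Finset.range m, ∀ᶠ y' in 𝓝 y, y' i = y i := by
        intro i hi
        have h1 : {y i} ∈ 𝓝 (y i) :=
          (ENat.isOpen_singleton (hy i (Finset.mem_range.1 hi))).mem_nhds rfl
        exact (continuous_apply i).continuousAt h1
      have h2 := (Filter.eventually_all_finset _).2 h0
      filter_upwards [h2] with y' hy' i hi using hy' i (Finset.mem_range.2 hi)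
    have hc : ContinuousAt (fun y' : ℕ → ℕ∞ => M (trunc m y) ⊔
        (if y' m = ⊤ then E (trunc m y) else N (trunc m y) (y' m).toNat)) y := by
      have h1 := (continuous_G (E (trunc m y)) (N (trunc m y)) (hT _)).comp
        (continuous_apply (A := fun _ => ℕ∞) m)
      exact (continuous_const.sup h1).continuousAt
    refine hc.congr ?_
    filter_upwards [hnb] with y' hy'
    have ht : trunc m y' = trunc m y := by
      funext i
      unfold trunc
      split_ifs with h
      · rw [hy' i h]
      · rfl
    unfold piece
    rw [if_pos (fun i hi => by rw [hy' i hi]; exact hy i hi), ht]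
  · push Not at hy
    obtain ⟨i, hi, hyi⟩ := hy
    have hpy : piece p m M E N y = {p} := by
      unfold piece
      rw [if_neg]
      intro h
      exact h i hi hyi
    rw [Metric.continuousAt_iff']
    intro ε hε
    rw [hpy]
    obtain ⟨a, ha⟩ := exists_pow_lt_of_lt_one hε (by norm_num : (2:ℝ)⁻¹ < 1)
    have h1 : ∀ᶠ y' in 𝓝 y, (a : ℕ∞) < y' i := by
      have h2 : Ioi (a : ℕ∞) ∈ 𝓝 (y i) := by
        rw [hyi]
        exact Ioi_mem_nhds (ENat.natCast_lt_top a)
      exact (continuous_apply i).continuousAt h2
    filter_upwards [h1] with y' hy'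
    by_cases hfin : ∀ j < m, y' j ≠ ⊤
    · have hp' : piece p m M E N y' = M (trunc m y') ⊔
          (if y' m = ⊤ then E (trunc m y') else N (trunc m y') (y' m).toNat) := by
        unfold piece
        rw [if_pos hfin]
      have hrad : rad m (trunc m y') ≤ (2:ℝ)⁻¹ ^ a := by
        unfold rad
        apply pow_le_pow_of_le_one (by norm_num) (by norm_num)
        have h3 : a ≤ trunc m y' i := by
          unfold trunc
          rw [if_pos hi]
          have h4 := hfin i hi
          obtain ⟨b, hb⟩ := ENat.ne_top_iff_exists.1 h4
          rw [← hb] at hy' ⊢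
          simp only [ENat.toNat_natCast]
          exact_mod_cast hy'.le
        have h5 := Finset.single_le_sum (f := fun i => trunc m y' i + 1)
          (fun _ _ => Nat.zero_le _) (Finset.mem_range.2 hi)
        omega
      have hmem : p ∈ piece p m M E N y' := by
        rw [hp']
        exact Or.inl (hM _)
      have hsub : (piece p m M E N y' : Set K) ⊆ closedBall p (rad m (trunc m y')) := by
        rw [hp', NonemptyCompacts.coe_sup]
        refine union_subset (hM2 _) ?_
        split_ifs with h
        · exact hE2 _
        · exact hN2 _ _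
      rw [NonemptyCompacts.dist_eq]
      refine lt_of_le_of_lt ?_ ha
      apply Metric.hausdorffDist_le_of_mem_dist (by positivity)
      · intro x hx
        refine ⟨p, ?_, (mem_closedBall.1 (hsub hx)).trans hrad⟩
        exact rfl
      · intro x hx
        have hxp : x = p := hx
        refine ⟨p, hmem, ?_⟩
        rw [hxp, dist_self]
        positivity
    · have hp' : piece p m M E N y' = {p} := by
        unfold piece
        rw [if_neg hfin]
      rw [hp', dist_self]
      exact hε

end Pool.Agent.R280.HC.PC
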