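import Pool.Agent.R280.HC.Stm

/-! # PI: the assembly (piece of MP_65ee2d_an) -/

set_option autoImplicit false

open Set Metric MeasureTheory Filter Topology TopologicalSpace
open scoped ENNReal NNReal

universe u

namespace Pool.Agent.R280.HC.PI

open Pool.Agent.R280.HC

theorem sup_inf (F : (ℕ → ℕ) → ℝ≥0∞) (hF : Continuous F) (x : ℕ → ℕ) :
    ⨆ m : ℕ, (⨅ (x' : ℕ → ℕ) (_ : ∀ i < m, x' i = x i), F x') = F x := by
  apply le_antisymm
  · exact iSup_le fun m => iInf₂_le x (fun _ _ => rfl)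
  · by_contra hlt
    rw [not_le] at hlt
    obtain ⟨c, hc1, hc2⟩ := exists_between hlt
    have hex : ∀ m : ℕ, ∃ x' : ℕ → ℕ, (∀ i < m, x' i = x i) ∧ F x' < c := by
      intro m
      have h1 : (⨅ (x' : ℕ → ℕ) (_ : ∀ i < m, x' i = x i), F x') < c :=
        lt_of_le_of_lt (le_iSup (fun m : ℕ => (⨅ (x' : ℕ → ℕ) (_ : ∀ i < m, x' i = x i), F x')) m) hc1
      simp only [iInf_lt_iff] at h1
      obtain ⟨x', h, h'⟩ := h1
      exact ⟨x', h, h'⟩
    choose z hz hzc using hex
    have ht : Tendsto z atTop (𝓝 x) := by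
      rw [tendsto_pi_nhds]
      intro i
      apply tendsto_const_nhds.congr'
      filter_upwards [eventually_gt_atTop i] with m hm
      exact (hz m i hm).symm
    have h2 : Tendsto (fun m => F (z m)) atTop (𝓝 (F x)) := (hF.tendsto x).comp ht
    have h3 : F x ≤ c := le_of_tendsto' h2 fun m => (hzc m).le
    exact absurd hc2 (not_lt.mpr h3)

theorem rad_le (m : ℕ) (x : ℕ → ℕ) : rad m x ≤ (2 : ℝ)⁻¹ ^ m := by
  unfold rad
  apply pow_le_pow_of_le_one (by norm_num) (by norm_num)
  calc m = ∑ i ∈ Finset.range m, 1 := by simp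
    _ ≤ _ := Finset.sum_le_sum fun i _ => by omega

theorem main (hNT : StmtNT.{u}) (hUC : StmtUC.{u}) (hPC : StmtPC.{u}) : StmtPI.{u} := by
  intro K _ _ D p hyp A hA hAD
  rcases A.eq_empty_or_nonempty with rfl | hne
  · exact ⟨∅, isCompact_empty, by simp⟩
  rw [AnalyticSet] at hA
  rcases hA with hA | ⟨F, hFc, rfl⟩
  · exact absurd hA hne.ne_empty
  have hFD : ∀ x, F x ≤ D := fun x => hAD _ ⟨x, rfl⟩
  obtain ⟨u, hu⟩ : ∃ u : ℕ → (ℕ → ℕ) → ℝ≥0∞,
      u = fun m x => ⨅ (x' : ℕ → ℕ) (_ : ∀ i < m, x' i = x i), F x' := ⟨_, rfl⟩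
  have hu_le : ∀ m x, u m x ≤ F x := fun m x => by
    rw [hu]; exact iInf₂_le x (fun _ _ => rfl)
  have hu_congr : ∀ m x x', (∀ i < m, x' i = x i) → u m x' = u m x := by
    intro m x x' h
    rw [hu]
    apply le_antisymm
    · exact le_iInf₂ fun z hz => iInf₂_le z fun i hi => (hz i hi).trans (h i hi).symm
    · exact le_iInf₂ fun z hz => iInf₂_le z fun i hi => (hz i hi).trans (h i hi)
  have hsup : ∀ x, ⨆ m, u m x = F x := fun x => by rw [hu]; exact sup_inf F hFc x
  have hrad : ∀ m x, 0 < rad m x := fun m x => by unfold rad; positivity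
  choose M hMp hMb hMd using
    fun m x => hyp (rad m x) (hrad m x) (u m x) ((hu_le m x).trans (hFD x))
  choose E hEp hEb hEd using fun m x => hyp (rad m x) (hrad m x) (F x) (hFD x)
  choose N hN hNt using fun m x => hNT K p (E m x) (hEp m x)
  have hQc : ∀ m, Continuous (piece p m (M m) (E m) (N m)) := fun m =>
    hPC K p m (M m) (E m) (N m) (hMp m) (hEp m) (fun x k => (hN m x k).2.1) (hMb m) (hEb m)
      (fun x k => (hN m x k).2.2.trans (hEb m x)) (hNt m)
  have hpos : ∀ m (y : ℕ → ℕ∞), (∀ i < m, y i ≠ ⊤) → piece p m (M m) (E m) (N m) y =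
      M m (trunc m y) ⊔ (if y m = ⊤ then E m (trunc m y) else N m (trunc m y) (y m).toNat) := by
    intro m y h
    unfold piece
    rw [if_pos h]
  have hneg : ∀ m (y : ℕ → ℕ∞), (¬ ∀ i < m, y i ≠ ⊤) →
      piece p m (M m) (E m) (N m) y = {p} := by
    intro m y h
    unfold piece
    rw [if_neg h]
  have hQp : ∀ m y, p ∈ piece p m (M m) (E m) (N m) y := by
    intro m y
    by_cases h : ∀ i < m, y i ≠ ⊤
    · rw [hpos m y h, ← SetLike.mem_coe, NonemptyCompacts.coe_sup]
      exact Or.inl (hMp _ _)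
    · rw [hneg m y h, ← SetLike.mem_coe]
      simp
  have hQb : ∀ m y, (piece p m (M m) (E m) (N m) y : Set K) ⊆ closedBall p ((2 : ℝ)⁻¹ ^ m) := by
    intro m y
    by_cases h : ∀ i < m, y i ≠ ⊤
    · rw [hpos m y h, NonemptyCompacts.coe_sup]
      apply union_subset
      · exact (hMb _ _).trans (closedBall_subset_closedBall (rad_le _ _))
      · split_ifs
        · exact (hEb _ _).trans (closedBall_subset_closedBall (rad_le _ _))
        · exact ((hN _ _ _).2.2.trans (hEb _ _)).trans (closedBall_subset_closedBall (rad_le _ _))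
    · rw [hneg m y h]
      have : (({p} : NonemptyCompacts K) : Set K) = {p} := by simp
      rw [this, singleton_subset_iff]
      exact mem_closedBall_self (by positivity)
  obtain ⟨Φ, hΦc, hΦ⟩ := hUC K p (ℕ → ℕ∞) (fun m => piece p m (M m) (E m) (N m)) hQc hQp hQb
  have hdim : ∀ y, dimH (Φ y : Set K) = ⨆ m, dimH (piece p m (M m) (E m) (N m) y : Set K) := by
    intro y
    rw [hΦ, dimH_iUnion]
  have hdneg : ∀ m (y : ℕ → ℕ∞), (¬ ∀ i < m, y i ≠ ⊤) →
      dimH (piece p m (M m) (E m) (N m) y : Set K) = 0 := by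
    intro m y h
    rw [hneg m y h]
    have : (({p} : NonemptyCompacts K) : Set K) = {p} := by simp
    rw [this, dimH_singleton]
  have hdfin : ∀ m (y : ℕ → ℕ∞), (∀ i < m, y i ≠ ⊤) → y m ≠ ⊤ →
      dimH (piece p m (M m) (E m) (N m) y : Set K) = u m (trunc m y) := by
    intro m y h h'
    rw [hpos m y h, NonemptyCompacts.coe_sup, if_neg h', dimH_union, hMd, (hN _ _ _).1.dimH_zero]
    simp
  have hdtop : ∀ m (y : ℕ → ℕ∞), (∀ i < m, y i ≠ ⊤) → y m = ⊤ →
      dimH (piece p m (M m) (E m) (N m) y : Set K) = F (trunc m y) := by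
    intro m y h h'
    rw [hpos m y h, NonemptyCompacts.coe_sup, if_pos h', dimH_union, hMd, hEd]
    exact max_eq_right (hu_le _ _)
  have hallfin : ∀ x : ℕ → ℕ, dimH (Φ (fun i => (x i : ℕ∞)) : Set K) = F x := by
    intro x
    rw [hdim, ← hsup x]
    congr 1
    ext1 m
    rw [hdfin m _ (fun i _ => by simp) (by simp)]
    apply hu_congr
    intro i hi
    simp [trunc, hi]
  refine ⟨range Φ, isCompact_range hΦc, ?_⟩
  ext a
  constructor
  · rintro ⟨_, ⟨y, rfl⟩, rfl⟩
    by_cases hy : ∀ i, y i ≠ ⊤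
    · have hy' : y = fun i => (((y i).toNat : ℕ) : ℕ∞) := by
        ext1 i
        exact (ENat.natCast_toNat (hy i)).symm
      refine ⟨fun i => (y i).toNat, ?_⟩
      rw [hy']
      have := hallfin (fun i => (y i).toNat)
      simp only [ENat.toNat_natCast] at this ⊢
      exact this.symm
    · push Not at hy
      classical
      have hn : y (Nat.find hy) = ⊤ := Nat.find_spec hy
      have hlt : ∀ i < Nat.find hy, y i ≠ ⊤ := fun i hi => Nat.find_min hy hi
      refine ⟨trunc (Nat.find hy) y, ?_⟩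
      simp only
      rw [hdim]
      apply le_antisymm
      · rw [← hdtop _ y hlt hn]
        exact le_iSup (fun m => dimH (piece p m (M m) (E m) (N m) y : Set K)) (Nat.find hy)
      · apply iSup_le
        intro m
        rcases lt_trichotomy m (Nat.find hy) with h | h | h
        · rw [hdfin m y (fun i hi => hlt i (hi.trans h)) (hlt m h)]
          rw [← hu_congr m (trunc m y) (trunc (Nat.find hy) y)]
          · exact hu_le _ _
          · intro i hi
            simp [trunc, hi, hi.trans h]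
        · rw [h, hdtop _ y hlt hn]
        · rw [hdneg m y (fun hh => hh _ h hn)]
          exact bot_le
  · rintro ⟨x, rfl⟩
    exact ⟨_, ⟨_, rfl⟩, hallfin x⟩

end Pool.Agent.R280.HC.PI
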