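import Pool.Agent.R280.HC.Stm

/-!
# SA: multi-scale selection
-/

set_option autoImplicit false

open Set Metric

universe u

namespace Pool.Agent.R280.HC.SA

open Pool.Agent.R280.HC

theorem main : StmtSA.{u} := by
  classical
  intro X _ E hE t ht g hg hanti G hG n
  induction n with
  | zero =>
    refine ⟨∅, ⟨by simp, ?_, by simp⟩, by simp, by simp⟩
    intro z r hr
    simp only [Finset.filter_empty, Finset.sum_empty]
    positivity
  | succ n ih =>
    obtain ⟨P', hA', hP', hH'⟩ := ih
    -- admissible sets
    let Ad : Finset X → Prop := fun Q => (∀ y ∈ Q, y ∈ G n) ∧ Adm t (P' ∪ Q.image (fun y => (y, g n)))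
    have hgt : 0 < (g n) ^ t := Real.rpow_pos_of_pos (hg n) t
    have hK : ∃ K : ℕ, ∀ Q, Ad Q → Q.card ≤ K := by
      rcases (G n).eq_empty_or_nonempty with he | ⟨z₀, hz₀⟩
      · refine ⟨0, fun Q hQ => ?_⟩
        rw [Nat.le_zero, Finset.card_eq_zero, Finset.eq_empty_iff_forall_notMem]
        intro y hy
        have := hQ.1 y hy
        rw [he] at this
        exact this
      · obtain ⟨r₀, hr₀⟩ := hE.subset_closedBall z₀
        let r := max r₀ (g n)
        have hr : 0 < r := lt_max_of_lt_right (hg n)
        refine ⟨⌊r ^ t / (g n) ^ t⌋₊, fun Q hQ => ?_⟩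
        apply Nat.le_floor
        rw [le_div_iff₀ hgt]
        have h1 := hQ.2.count z₀ r hr
        refine le_trans ?_ h1
        have h2 : ∑ p ∈ Q.image (fun y => (y, g n)), p.2 ^ t = Q.card * (g n) ^ t := by
          rw [Finset.sum_image]
          · simp only [Finset.sum_const, nsmul_eq_mul]
          · intro a _ b _ hab
            exact (Prod.mk.inj hab).1
        rw [← h2]
        apply Finset.sum_le_sum_of_subset_of_nonneg
        · intro p hp
          rw [Finset.mem_filter]
          refine ⟨Finset.mem_union_right _ hp, ?_⟩
          rw [Finset.mem_image] at hp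
          obtain ⟨y, hy, rfl⟩ := hp
          refine ⟨?_, le_max_right _ _⟩
          exact closedBall_subset_closedBall (le_max_left _ _) (hr₀ (hG n (hQ.1 y hy)))
        · intro p hp _
          rw [Finset.mem_filter] at hp
          exact Real.rpow_nonneg (hQ.2.pos p hp.1).le _
    obtain ⟨K, hK⟩ := hK
    have hmax : ∃ Q, Ad Q ∧ ∀ Q', Ad Q' → Q'.card ≤ Q.card := by
      let S : Set ℕ := {k | ∃ Q, Ad Q ∧ Q.card = k}
      have hb : BddAbove S := ⟨K, by rintro k ⟨Q, hQ, rfl⟩; exact hK Q hQ⟩
      have hne : S.Nonempty := ⟨0, ∅, ⟨by simp, by simpa using hA'⟩, by simp⟩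
      obtain ⟨Q, hQ, hc⟩ := Nat.sSup_mem hne hb
      exact ⟨Q, hQ, fun Q' hQ' => by rw [hc]; exact le_csSup hb ⟨Q', hQ', rfl⟩⟩
    obtain ⟨Q, hQ, hmax⟩ := hmax
    obtain ⟨P, hPdef⟩ : ∃ P, P = P' ∪ Q.image (fun y => (y, g n)) := ⟨_, rfl⟩
    have hA : Adm t P := hPdef ▸ hQ.2
    have hscale : ∀ p ∈ P, ∃ k < n + 1, p.2 = g k ∧ p.1 ∈ G k := by
      intro p hp
      rw [hPdef, Finset.mem_union, Finset.mem_image] at hp
      rcases hp with hp | ⟨y, hy, rfl⟩
      · obtain ⟨k, hk, h⟩ := hP' p hp
        exact ⟨k, by omega, h⟩
      · exact ⟨n, by omega, rfl, hQ.1 y hy⟩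
    have hge : ∀ p ∈ P, g n ≤ p.2 := by
      intro p hp
      obtain ⟨k, hk, h, -⟩ := hscale p hp
      rw [h]
      exact hanti (by omega)
    have hnn : ∀ p ∈ P, 0 ≤ p.2 ^ t := fun p hp => Real.rpow_nonneg (hA.pos p hp).le _
    have h6 : (1 : ℝ) ≤ 6 ^ t := Real.one_le_rpow (by norm_num) ht.le
    refine ⟨P, hA, hscale, fun k hk y hy => ?_⟩
    rcases Nat.lt_succ_iff_lt_or_eq.1 hk with hk | rfl
    · obtain ⟨z, r, hr, hyz, h⟩ := hH' k hk y hy
      refine ⟨z, r, hr, hyz, h.trans ?_⟩
      apply mul_le_mul_of_nonneg_left _ (by positivity)
      apply Finset.sum_le_sum_of_subset_of_nonneg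
      · intro p hp
        rw [Finset.mem_filter] at hp ⊢
        exact ⟨by rw [hPdef]; exact Finset.mem_union_left _ hp.1, hp.2⟩
      · intro p hp _
        exact hnn p (Finset.mem_filter.1 hp).1
    · by_contra hno
      push Not at hno
      by_cases hyP : (y, g k) ∈ P
      · have h1 := hno y (g k) (hg k) (mem_closedBall_self (hg k).le)
        have h2 : (g k) ^ t ≤ ∑ p ∈ P.filter (fun p => p.1 ∈ closedBall y (g k)), p.2 ^ t := by
          have := Finset.single_le_sum (f := fun p : X × ℝ => p.2 ^ t)
            (s := P.filter (fun p => p.1 ∈ closedBall y (g k)))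
            (fun p hp => hnn p (Finset.mem_filter.1 hp).1)
            (Finset.mem_filter.2 ⟨hyP, mem_closedBall_self (hg k).le⟩)
          exact this
        nlinarith
      · have hyQ : y ∉ Q := by
          intro h
          apply hyP
          rw [hPdef]
          exact Finset.mem_union_right _ (Finset.mem_image_of_mem _ h)
        have hbad : ¬ Ad (insert y Q) := by
          intro h
          have := hmax _ h
          rw [Finset.card_insert_of_notMem hyQ] at this
          omega
        apply hbad
        refine ⟨?_, ?_⟩
        · intro x hx
          rw [Finset.mem_insert] at hx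
          rcases hx with rfl | hx
          · exact hy
          · exact hQ.1 x hx
        · have e : P' ∪ (insert y Q).image (fun y => (y, g k)) = insert (y, g k) P := by
            rw [Finset.image_insert, Finset.union_insert, hPdef]
          rw [e]
          have hsep : ∀ q ∈ P, 3 * (g k + q.2) < dist y q.1 := by
            intro q hq
            by_contra hcon
            push Not at hcon
            have hq0 := hA.pos q hq
            have hqg := hge q hq
            have h1 := hno q.1 (6 * q.2) (by linarith) (by
              rw [mem_closedBall]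
              linarith)
            have h2 : q.2 ^ t ≤ ∑ p ∈ P.filter (fun p => p.1 ∈ closedBall q.1 (6 * q.2)), p.2 ^ t := by
              have := Finset.single_le_sum (f := fun p : X × ℝ => p.2 ^ t)
                (s := P.filter (fun p => p.1 ∈ closedBall q.1 (6 * q.2)))
                (fun p hp => hnn p (Finset.mem_filter.1 hp).1)
                (Finset.mem_filter.2 ⟨hq, mem_closedBall_self (by linarith)⟩)
              exact this
            rw [Real.mul_rpow (by norm_num) hq0.le] at h1
            have h3 : 0 ≤ q.2 ^ t := hnn q hq
            nlinarith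
          constructor
          · intro p hp
            rw [Finset.mem_insert] at hp
            rcases hp with rfl | hp
            · exact hg k
            · exact hA.pos p hp
          · intro z r hr
            by_cases hc : y ∈ closedBall z r ∧ g k ≤ r
            · rw [Finset.filter_insert, if_pos hc, Finset.sum_insert (fun h => hyP (Finset.mem_filter.1 h).1)]
              by_contra hcon
              push Not at hcon
              have h1 := hno z r hr hc.1
              have h2 : ∑ p ∈ P.filter (fun p => p.1 ∈ closedBall z r ∧ p.2 ≤ r), p.2 ^ t ≤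
                  ∑ p ∈ P.filter (fun p => p.1 ∈ closedBall z r), p.2 ^ t := by
                apply Finset.sum_le_sum_of_subset_of_nonneg
                · intro p hp
                  rw [Finset.mem_filter] at hp ⊢
                  exact ⟨hp.1, hp.2.1⟩
                · intro p hp _
                  exact hnn p (Finset.mem_filter.1 hp).1
              have h3 : (g k) ^ t ≤ r ^ t := Real.rpow_le_rpow (hg k).le hc.2 ht.le
              rcases (P.filter (fun p => p.1 ∈ closedBall z r ∧ p.2 ≤ r)).eq_empty_or_nonempty with he | ⟨p, hp⟩
              · rw [he, Finset.sum_empty] at hcon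
                simp only at hcon
                linarith
              · have h4 := Finset.single_le_sum (f := fun p : X × ℝ => p.2 ^ t)
                  (s := P.filter (fun p => p.1 ∈ closedBall z r ∧ p.2 ≤ r))
                  (fun p hp => hnn p (Finset.mem_filter.1 hp).1) hp
                have h5 : (g k) ^ t ≤ p.2 ^ t := Real.rpow_le_rpow (hg k).le (hge p (Finset.mem_filter.1 hp).1) ht.le
                simp only at hcon h4
                have h6' : 0 ≤ ∑ p ∈ P.filter (fun p => p.1 ∈ closedBall z r), p.2 ^ t :=
                  Finset.sum_nonneg fun p hp => hnn p (Finset.mem_filter.1 hp).1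
                nlinarith
            · rw [Finset.filter_insert, if_neg hc]
              exact hA.count z r hr
          · intro p hp q hq hpq
            rw [Finset.mem_insert] at hp hq
            rcases hp with rfl | hp
            · rcases hq with rfl | hq
              · exact absurd rfl hpq
              · exact hsep q hq
            · rcases hq with rfl | hq
              · have := hsep p hp
                rw [dist_comm, add_comm]
                exact this
              · exact hA.sep p hp q hq hpq

end Pool.Agent.R280.HC.SA
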