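import Pool.Agent.R280.HC.Stm

/-!
# SB: Vitali covering for heavy balls
-/

set_option autoImplicit false

open Set Metric MeasureTheory Filter Topology TopologicalSpace
open scoped ENNReal NNReal

universe u

namespace Pool.Agent.R280.HC.SB

open Pool.Agent.R280.HC

open Classical in
theorem main : StmtSB.{u} := by
  intro X _ t ht C hC P hP F hF
  let H : Set (X × ℝ) := {q | 0 < q.2 ∧
    q.2 ^ t ≤ C * ∑ p ∈ P.filter (fun p => p.1 ∈ closedBall q.1 q.2), p.2 ^ t}
  have hPnn : ∀ p ∈ P, (0 : ℝ) ≤ p.2 ^ t := fun p hp => Real.rpow_nonneg (hP p hp).le t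
  have hsub : ∀ q : X × ℝ, ∑ p ∈ P.filter (fun p => p.1 ∈ closedBall q.1 q.2), p.2 ^ t
      ≤ ∑ p ∈ P, p.2 ^ t := fun q =>
    Finset.sum_le_sum_of_subset_of_nonneg (Finset.filter_subset _ _) fun p hp _ => hPnn p hp
  set Bd : ℝ := C * ∑ p ∈ P, p.2 ^ t with hBd
  have hBd0 : 0 ≤ Bd := mul_nonneg hC.le (Finset.sum_nonneg hPnn)
  have hR : ∀ q ∈ H, q.2 ≤ Bd ^ t⁻¹ := by
    rintro q ⟨hq0, hq⟩
    rw [Real.le_rpow_inv_iff_of_pos hq0.le hBd0 ht]
    exact hq.trans (mul_le_mul_of_nonneg_left (hsub q) hC.le)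
  obtain ⟨v, hvH, hvd, hvc⟩ := Vitali.exists_disjoint_subfamily_covering_enlargement_closedBall
    H (fun q => q.1) (fun q => q.2) (Bd ^ t⁻¹) hR 5 (by norm_num)
  -- every heavy ball contains a point of `P`
  have hpt : ∀ q : X × ℝ, ∃ p : X × ℝ, q ∈ H → p ∈ P ∧ p.1 ∈ closedBall q.1 q.2 := by
    intro q
    by_cases hq : q ∈ H
    · have h1 : 0 < ∑ p ∈ P.filter (fun p => p.1 ∈ closedBall q.1 q.2), p.2 ^ t := by
        have h2 : 0 < q.2 ^ t := Real.rpow_pos_of_pos hq.1 t
        have h3 := lt_of_lt_of_le h2 hq.2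
        exact pos_of_mul_pos_right h3 hC.le
      obtain ⟨p, hp, -⟩ := Finset.exists_ne_zero_of_sum_ne_zero h1.ne'
      rw [Finset.mem_filter] at hp
      exact ⟨p, fun _ => hp⟩
    · exact ⟨q, fun h => absurd h hq⟩
  choose f hf using hpt
  have hfin : v.Finite := by
    refine Set.Finite.of_injOn (f := f) (t := (P : Set (X × ℝ))) ?_ ?_ P.finite_toSet
    · intro q hq
      exact (hf q (hvH hq)).1
    · intro q hq q' hq' hqq
      by_contra hne
      have h1 := hvd hq hq' hne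
      have h2 := (hf q (hvH hq)).2
      have h3 := (hf q' (hvH hq')).2
      rw [← hqq] at h3
      exact Set.disjoint_left.1 h1 h2 h3
  refine ⟨hfin.toFinset, ?_, ?_, ?_⟩
  · intro j hj
    exact (hvH ((Set.Finite.mem_toFinset hfin).1 hj)).1
  · intro y hy
    obtain ⟨z, r, hr, hyz, hle⟩ := hF y hy
    obtain ⟨b, hb, hsub'⟩ := hvc (z, r) ⟨hr, hle⟩
    simp only [Set.mem_iUnion]
    exact ⟨b, (Set.Finite.mem_toFinset hfin).2 hb, hsub' hyz⟩
  · calc ∑ j ∈ hfin.toFinset, j.2 ^ t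
        ≤ ∑ j ∈ hfin.toFinset,
          C * ∑ p ∈ P.filter (fun p => p.1 ∈ closedBall j.1 j.2), p.2 ^ t :=
          Finset.sum_le_sum fun j hj => (hvH ((Set.Finite.mem_toFinset hfin).1 hj)).2
      _ = C * ∑ p ∈ hfin.toFinset.biUnion
            (fun j => P.filter (fun p => p.1 ∈ closedBall j.1 j.2)), p.2 ^ t := by
          rw [← Finset.mul_sum, Finset.sum_biUnion]
          intro j hj j' hj' hne
          have h1 := hvd ((Set.Finite.mem_toFinset hfin).1 hj)
            ((Set.Finite.mem_toFinset hfin).1 hj') hne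
          change Disjoint _ _
          rw [Finset.disjoint_left]
          intro p hp hp'
          rw [Finset.mem_filter] at hp hp'
          exact Set.disjoint_left.1 h1 hp.2 hp'.2
      _ ≤ C * ∑ p ∈ P, p.2 ^ t := by
          refine mul_le_mul_of_nonneg_left ?_ hC.le
          refine Finset.sum_le_sum_of_subset_of_nonneg ?_ fun p hp _ => hPnn p hp
          intro p hp
          obtain ⟨j, _, hpj⟩ := Finset.mem_biUnion.1 hp
          exact (Finset.mem_filter.1 hpj).1

end Pool.Agent.R280.HC.SB
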