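import Mathlib

/-!
# Compact families of compact sets with prescribed Hausdorff dimensions (MP_65ee2d_an)

Definitions and statements of the pieces. Complete proofs: see `NOTES.md` in this folder.
-/

set_option autoImplicit false

open Set Metric MeasureTheory Filter Topology TopologicalSpace
open scoped ENNReal NNReal

universe u

namespace Pool.Agent.R280.HC

/-- Hausdorff content of exponent `s` (only used for `0 < s`) -/
noncomputable def cont {X : Type u} [MetricSpace X] (s : ℝ) (E : Set X) : ℝ≥0∞ :=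
  ⨅ (U : ℕ → Set X) (_ : E ⊆ ⋃ n, U n), ∑' n, (ediam (U n)) ^ s

/-- the constant of good points -/
noncomputable def cS (s : ℝ) : ℝ := 2 ^ (-(s + 1))

/-- points of `E` which are good at scale `2⁻ᵏ` -/
def good {X : Type u} [MetricSpace X] (s : ℝ) (E : Set X) (k : ℕ) : Set X :=
  {x | x ∈ E ∧ ENNReal.ofReal (cS s * ((2 : ℝ)⁻¹ ^ k) ^ s) ≤
    cont s (E ∩ closedBall x ((2 : ℝ)⁻¹ ^ k))}

/-- a node: a set `E` with centre `y` and radius `g` -/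
structure Nd (X : Type u) where
  E : Set X
  y : X
  g : ℝ

structure IsNode {X : Type u} [MetricSpace X] (s : ℝ) (v : Nd X) : Prop where
  cpt : IsCompact v.E
  mem : v.y ∈ v.E
  sub : v.E ⊆ closedBall v.y v.g
  pos : 0 < v.g
  big : ENNReal.ofReal (cS s * v.g ^ s) ≤ cont s v.E

/-- the child of `v` determined by a centre and a radius -/
def child {X : Type u} [MetricSpace X] (v : Nd X) (q : X × ℝ) : Nd X :=
  ⟨v.E ∩ closedBall q.1 q.2, q.1, q.2⟩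

open Classical in
/-- admissible finite sets of (centre, radius) pairs -/
structure Adm {X : Type u} [MetricSpace X] (t : ℝ) (P : Finset (X × ℝ)) : Prop where
  pos : ∀ p ∈ P, 0 < p.2
  count : ∀ (z : X) (r : ℝ), 0 < r →
    ∑ p ∈ P.filter (fun p => p.1 ∈ closedBall z r ∧ p.2 ≤ r), p.2 ^ t ≤ r ^ t
  sep : ∀ p ∈ P, ∀ q ∈ P, p ≠ q → 3 * (p.2 + q.2) < dist p.1 q.1

/-- a good finite set of children of the node `v` -/
structure GoodP {X : Type u} [MetricSpace X] (s t C1 δ : ℝ) (v : Nd X)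
    (P : Finset (X × ℝ)) : Prop where
  adm : Adm t P
  le : ∀ p ∈ P, p.2 ≤ δ
  le_g : ∀ p ∈ P, p.2 ≤ v.g
  node : ∀ p ∈ P, IsNode s (child v p)
  mass : v.g ^ t ≤ C1 * ∑ p ∈ P, p.2 ^ t

/-! ## content -/

/-- C0: basic properties of the content -/
def StmtC0 : Prop := ∀ (X : Type u) [MetricSpace X] (s : ℝ), 0 < s →
  (∀ E F : Set X, E ⊆ F → cont s E ≤ cont s F) ∧
  (∀ E : Set X, cont s E ≤ (ediam E) ^ s) ∧
  (∀ E : ℕ → Set X, cont s (⋃ n, E n) ≤ ∑' n, cont s (E n)) ∧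
  (∀ (ι : Type u) (J : Finset ι) (E : ι → Set X),
    cont s (⋃ i ∈ J, E i) ≤ ∑ i ∈ J, cont s (E i))

/-- C0H: positive content from the Hausdorff dimension -/
def StmtC0H : Prop := ∀ (X : Type u) [MetricSpace X] (s : ℝ), 0 < s → ∀ E : Set X,
  ENNReal.ofReal s < dimH E → 0 < cont s E

/-- MU: a Frostman measure is dominated by the content -/
def StmtMU : Prop := ∀ (X : Type u) [MetricSpace X] [MeasurableSpace X] [BorelSpace X]
  (s A : ℝ), 0 < s → ∀ μ : Measure X,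
  (∀ (z : X) (r : ℝ), 0 < r → μ (closedBall z r) ≤ ENNReal.ofReal (A * r ^ s)) →
  ∀ N : Set X, cont s N = 0 → μ N = 0

/-- MD: mass distribution principle -/
def StmtMD : Prop := ∀ (X : Type u) [MetricSpace X] [MeasurableSpace X] [BorelSpace X]
  (C : Set X) (μ : Measure X) (s A r₀ : ℝ), 0 < s → 0 < r₀ →
  (∀ (z : X) (r : ℝ), 0 < r → r < r₀ → μ (closedBall z r) ≤ ENNReal.ofReal (A * r ^ s)) →
  0 < μ C → ENNReal.ofReal s ≤ dimH C

/-- WL: weak limits of measures on decreasing compact sets -/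
def StmtWL : Prop := ∀ (X : Type u) [MetricSpace X] [MeasurableSpace X] [BorelSpace X]
  (S : ℕ → Set X), (∀ m, IsCompact (S m)) → Antitone S →
  ∀ M : ℕ → Measure X, (∀ m, IsProbabilityMeasure (M m)) → (∀ m, M m (S m)ᶜ = 0) →
  ∃ ν : Measure X, IsProbabilityMeasure ν ∧ ν (⋂ m, S m)ᶜ = 0 ∧
    ∀ U : Set X, IsOpen U → ∀ c : ℝ≥0∞, (∀ᶠ m in atTop, M m U ≤ c) → ν U ≤ c

/-! ## selection -/

open Classical in
/-- SA: multi-scale selection, every candidate lies in a heavy ball -/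
def StmtSA : Prop := ∀ (X : Type u) [MetricSpace X] (E : Set X), Bornology.IsBounded E →
  ∀ t : ℝ, 0 < t → ∀ g : ℕ → ℝ, (∀ k, 0 < g k) → Antitone g →
  ∀ G : ℕ → Set X, (∀ k, G k ⊆ E) → ∀ n : ℕ,
  ∃ P : Finset (X × ℝ), Adm t P ∧ (∀ p ∈ P, ∃ k < n, p.2 = g k ∧ p.1 ∈ G k) ∧
    ∀ k < n, ∀ y ∈ G k, ∃ (z : X) (r : ℝ), 0 < r ∧ y ∈ closedBall z r ∧
      r ^ t ≤ 2 * 6 ^ t * ∑ p ∈ P.filter (fun p => p.1 ∈ closedBall z r), p.2 ^ t

open Classical in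
/-- SB: Vitali covering for heavy balls -/
def StmtSB : Prop := ∀ (X : Type u) [MetricSpace X] (t : ℝ), 0 < t → ∀ C : ℝ, 0 < C →
  ∀ P : Finset (X × ℝ), (∀ p ∈ P, 0 < p.2) → ∀ F : Set X,
  (∀ y ∈ F, ∃ (z : X) (r : ℝ), 0 < r ∧ y ∈ closedBall z r ∧
      r ^ t ≤ C * ∑ p ∈ P.filter (fun p => p.1 ∈ closedBall z r), p.2 ^ t) →
  ∃ J : Finset (X × ℝ), (∀ j ∈ J, 0 < j.2) ∧ (F ⊆ ⋃ j ∈ J, closedBall j.1 (5 * j.2)) ∧
    ∑ j ∈ J, j.2 ^ t ≤ C * ∑ p ∈ P, p.2 ^ t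

/-! ## Frostman lemma and good points -/

/-- FL: Frostman lemma for compact sets in metric spaces -/
def StmtFL : Prop := ∀ (X : Type u) [MetricSpace X] [MeasurableSpace X] [BorelSpace X]
  (E : Set X), IsCompact E → ∀ s : ℝ, 0 < s → ∀ κ : ℝ, 0 < κ → ENNReal.ofReal κ ≤ cont s E →
  ∃ μ : Measure X, IsProbabilityMeasure μ ∧ μ Eᶜ = 0 ∧
    ∀ (z : X) (r : ℝ), 0 < r → μ (closedBall z r) ≤ ENNReal.ofReal (2 * 120 ^ s / κ * r ^ s)

/-- GC: small pieces of the set of points that are bad at all small scales have content zero -/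
def StmtGC : Prop := ∀ (X : Type u) [MetricSpace X] (E : Set X) (s : ℝ), 0 < s →
  ∀ (k₀ : ℕ) (N : Set X), N ⊆ E → (∀ k, k₀ ≤ k → Disjoint N (good s E k)) →
  ediam N ≤ ENNReal.ofReal ((2 : ℝ)⁻¹ ^ (k₀ + 1)) → cont s N = 0

/-- GD: almost every point is good at some small scale -/
def StmtGD : Prop := ∀ (X : Type u) [MetricSpace X] [MeasurableSpace X] [BorelSpace X]
  (E : Set X), IsCompact E → ∀ s A : ℝ, 0 < s → ∀ μ : Measure X, μ Eᶜ = 0 →
  (∀ (z : X) (r : ℝ), 0 < r → μ (closedBall z r) ≤ ENNReal.ofReal (A * r ^ s)) →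
  ∀ k₀ : ℕ, μ (⋃ k, good s E (k₀ + k))ᶜ = 0

/-- ND: the one-step lemma -/
def StmtND : Prop := ∀ s t : ℝ, 0 < t → t < s → ∃ C1 : ℝ, 1 ≤ C1 ∧
  ∀ (X : Type u) [MetricSpace X] (v : Nd X), IsNode s v → ∀ δ : ℝ, 0 < δ →
  ∃ P : Finset (X × ℝ), GoodP s t C1 δ v P

/-! ## the tree -/

/-- union of the sets of the descendants of `v` after `m` steps (`v` of level `n`) -/
def SS {X : Type u} [MetricSpace X] (P : ℕ → Nd X → Finset (X × ℝ)) : ℕ → ℕ → Nd X → Set X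
  | 0, _, v => v.E
  | m + 1, n, v => ⋃ q ∈ P n v, SS P m (n + 1) (child v q)

/-- approximating measures -/
noncomputable def MM {X : Type u} [MetricSpace X] [MeasurableSpace X] (t : ℝ)
    (P : ℕ → Nd X → Finset (X × ℝ)) : ℕ → ℕ → Nd X → Measure X
  | 0, _, v => Measure.dirac v.y
  | m + 1, n, v => ∑ q ∈ P n v,
      ENNReal.ofReal (q.2 ^ t / ∑ q' ∈ P n v, q'.2 ^ t) • MM t P m (n + 1) (child v q)

structure IsTree {X : Type u} [MetricSpace X] (s t C1 : ℝ) (δ : ℕ → ℝ)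
    (P : ℕ → Nd X → Finset (X × ℝ)) : Prop where
  ht : 0 < t
  hC1 : 1 ≤ C1
  δpos : ∀ n, 0 < δ n
  step : ∀ n v, IsNode s v → GoodP s t C1 (δ (n + 1)) v (P n v)

/-- T1: properties of the sets -/
def StmtT1 : Prop := ∀ (X : Type u) [MetricSpace X] (s t C1 : ℝ) (δ : ℕ → ℝ)
  (P : ℕ → Nd X → Finset (X × ℝ)), IsTree s t C1 δ P → ∀ (m n : ℕ) (v : Nd X), IsNode s v →
  IsCompact (SS P m n v) ∧ SS P m n v ⊆ v.E ∧ SS P (m + 1) n v ⊆ SS P m n v

/-- T1D: upper bound of the dimension -/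
def StmtT1D : Prop := ∀ (X : Type u) [MetricSpace X] (s t C1 : ℝ) (δ : ℕ → ℝ)
  (P : ℕ → Nd X → Finset (X × ℝ)), IsTree s t C1 δ P → Tendsto δ atTop (𝓝 0) →
  ∀ v : Nd X, IsNode s v → v.g ≤ δ 0 → dimH (⋂ m, SS P m 0 v) ≤ ENNReal.ofReal t

/-- T2: properties of the measures -/
def StmtT2 : Prop := ∀ (X : Type u) [MetricSpace X] [MeasurableSpace X] [BorelSpace X]
  (s t C1 : ℝ) (δ : ℕ → ℝ)
  (P : ℕ → Nd X → Finset (X × ℝ)), IsTree s t C1 δ P → ∀ (m n : ℕ) (v : Nd X), IsNode s v →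
  IsProbabilityMeasure (MM t P m n v) ∧ MM t P m n v (SS P m n v)ᶜ = 0

/-- T3: upper bound for the measures of balls -/
def StmtT3 : Prop := ∀ (X : Type u) [MetricSpace X] [MeasurableSpace X] [BorelSpace X]
  (s t C1 : ℝ) (δ : ℕ → ℝ)
  (P : ℕ → Nd X → Finset (X × ℝ)), IsTree s t C1 δ P →
  (∀ (m n : ℕ) (v : Nd X), IsNode s v →
    IsProbabilityMeasure (MM t P m n v) ∧ MM t P m n v (v.E)ᶜ = 0) →
  ∀ (j m n : ℕ) (v : Nd X) (z : X) (r : ℝ), IsNode s v → v.g ≤ δ n → j ≤ m → δ (n + j) ≤ r →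
  MM t P m n v (closedBall z r) ≤ ENNReal.ofReal ((C1 * (2 ^ t + 1)) ^ j * (r / v.g) ^ t)

/-- T4: the limit measure and the lower bound of the dimension -/
def StmtT4 : Prop := ∀ (X : Type u) [MetricSpace X] [MeasurableSpace X] [BorelSpace X]
  (t B g : ℝ) (δ : ℕ → ℝ), 0 < t → 1 < B → 0 < g → (∀ n, 0 < δ n) → Antitone δ →
  (∀ n, δ (n + 1) ≤ B⁻¹ ^ ((n + 2) ^ 2)) →
  ∀ (S : ℕ → Set X), (∀ m, IsCompact (S m)) → Antitone S →
  ∀ M : ℕ → Measure X, (∀ m, IsProbabilityMeasure (M m)) → (∀ m, M m (S m)ᶜ = 0) →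
  (∀ (j m : ℕ) (z : X) (r : ℝ), j ≤ m → δ j ≤ r →
    M m (closedBall z r) ≤ ENNReal.ofReal (B ^ j * (r / g) ^ t)) →
  ENNReal.ofReal t ≤ dimH (⋂ m, S m)

/-- TR: the limit set of a tree -/
def StmtTR : Prop := ∀ (X : Type u) [MetricSpace X] (s t C1 : ℝ), 0 < t → 1 ≤ C1 →
  (∀ v : Nd X, IsNode s v → ∀ δ : ℝ, 0 < δ → ∃ P : Finset (X × ℝ), GoodP s t C1 δ v P) →
  ∀ v : Nd X, IsNode s v → ∃ C ⊆ v.E, IsCompact C ∧ C.Nonempty ∧ dimH C = ENNReal.ofReal t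

/-- L: compact sets with prescribed dimension -/
def StmtL : Prop := ∀ (X : Type u) [MetricSpace X] (K : Set X), IsCompact K →
  ∀ t : ℝ≥0∞, t < dimH K → ∃ C ⊆ K, IsCompact C ∧ C.Nonempty ∧ dimH C = t

/-! ## assembly -/

/-- LP: a point of full local dimension -/
def StmtLP : Prop := ∀ (K : Type u) [MetricSpace K] [CompactSpace K] [Nonempty K],
  ∃ p : K, ∀ r : ℝ, 0 < r → dimH (closedBall p r) = dimH (univ : Set K)

/-- NT: finite nets -/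
def StmtNT : Prop := ∀ (K : Type u) [MetricSpace K] [CompactSpace K] (p : K)
  (C : NonemptyCompacts K), p ∈ C → ∃ N : ℕ → NonemptyCompacts K,
  (∀ k, (N k : Set K).Finite ∧ p ∈ N k ∧ (N k : Set K) ⊆ C) ∧ Tendsto N atTop (𝓝 C)

/-- UC: unions of pieces shrinking to a point depend continuously on the parameter -/
def StmtUC : Prop := ∀ (K : Type u) [MetricSpace K] [CompactSpace K] (p : K)
  (Y : Type) [TopologicalSpace Y] (Q : ℕ → Y → NonemptyCompacts K), (∀ m, Continuous (Q m)) →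
  (∀ m y, p ∈ Q m y) → (∀ m y, (Q m y : Set K) ⊆ closedBall p ((2 : ℝ)⁻¹ ^ m)) →
  ∃ Φ : Y → NonemptyCompacts K, Continuous Φ ∧ ∀ y, (Φ y : Set K) = ⋃ m, (Q m y : Set K)

/-- truncation -/
def trunc (m : ℕ) (y : ℕ → ℕ∞) : ℕ → ℕ := fun i => if i < m then (y i).toNat else 0

/-- the radius attached to the first `m` coordinates of `x` -/
noncomputable def rad (m : ℕ) (x : ℕ → ℕ) : ℝ := (2 : ℝ)⁻¹ ^ (∑ i ∈ Finset.range m, (x i + 1))

open Classical in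
/-- the `m`-th piece -/
noncomputable def piece {K : Type u} [MetricSpace K] (p : K) (m : ℕ)
    (M E : (ℕ → ℕ) → NonemptyCompacts K) (N : (ℕ → ℕ) → ℕ → NonemptyCompacts K)
    (y : ℕ → ℕ∞) : NonemptyCompacts K :=
  if ∀ i < m, y i ≠ ⊤ then
    M (trunc m y) ⊔ (if y m = ⊤ then E (trunc m y) else N (trunc m y) (y m).toNat)
  else {p}

/-- PC: continuity of the pieces -/
def StmtPC : Prop := ∀ (K : Type u) [MetricSpace K] [CompactSpace K] (p : K) (m : ℕ)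
  (M E : (ℕ → ℕ) → NonemptyCompacts K) (N : (ℕ → ℕ) → ℕ → NonemptyCompacts K),
  (∀ x, p ∈ M x) → (∀ x, p ∈ E x) → (∀ x k, p ∈ N x k) →
  (∀ x, (M x : Set K) ⊆ closedBall p (rad m x)) →
  (∀ x, (E x : Set K) ⊆ closedBall p (rad m x)) →
  (∀ x k, (N x k : Set K) ⊆ closedBall p (rad m x)) →
  (∀ x, Tendsto (N x) atTop (𝓝 (E x))) → Continuous (piece p m M E N)

/-- PI: the assembly -/
def StmtPI : Prop := ∀ (K : Type u) [MetricSpace K] [CompactSpace K] (D : ℝ≥0∞) (p : K),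
  (∀ r : ℝ, 0 < r → ∀ v : ℝ≥0∞, v ≤ D → ∃ C : NonemptyCompacts K, p ∈ C ∧
    (C : Set K) ⊆ closedBall p r ∧ dimH (C : Set K) = v) →
  ∀ A : Set ℝ≥0∞, AnalyticSet A → (∀ a ∈ A, a ≤ D) →
  ∃ 𝒞 : Set (NonemptyCompacts K), IsCompact 𝒞 ∧
    (fun C : NonemptyCompacts K => dimH (C : Set K)) '' 𝒞 = A

end Pool.Agent.R280.HC
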