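import Pool.Agent.R280.HC.Stm

/-! MP_65ee2d_an, piece T1: properties of the level sets of the tree. -/

set_option autoImplicit false

open Set Metric MeasureTheory Filter Topology TopologicalSpace
open scoped ENNReal NNReal

universe u

namespace Pool.Agent.R280.HC.T1

open Pool.Agent.R280.HC

theorem main : StmtT1.{u} := by
  intro X _ s t C1 δ P hT m
  induction m with
  | zero =>
    intro n v hv
    refine ⟨hv.cpt, Subset.rfl, ?_⟩
    show (⋃ q ∈ P n v, (child v q).E) ⊆ v.E
    exact iUnion₂_subset fun q _ => inter_subset_left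
  | succ m ih =>
    intro n v hv
    have hch : ∀ q ∈ P n v, IsNode s (child v q) := (hT.step n v hv).node
    refine ⟨?_, ?_, ?_⟩
    · show IsCompact (⋃ q ∈ P n v, SS P m (n + 1) (child v q))
      exact (P n v).isCompact_biUnion fun q hq => (ih (n + 1) _ (hch q hq)).1
    · show (⋃ q ∈ P n v, SS P m (n + 1) (child v q)) ⊆ v.E
      exact iUnion₂_subset fun q hq => (ih (n + 1) _ (hch q hq)).2.1.trans inter_subset_left
    · show (⋃ q ∈ P n v, SS P (m + 1) (n + 1) (child v q)) ⊆
        ⋃ q ∈ P n v, SS P m (n + 1) (child v q)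
      exact iUnion₂_mono fun q hq => (ih (n + 1) _ (hch q hq)).2.2

end Pool.Agent.R280.HC.T1
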