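import Pool.Agent.R280.HC.Stm

/-!
# Project HC, piece T1D: upper bound of the dimension of the limit set
-/

set_option autoImplicit false

open Set Metric MeasureTheory Filter Topology TopologicalSpace
open scoped ENNReal NNReal

universe u

namespace Pool.Agent.R280.HC.T1D

open Pool.Agent.R280.HC

/-- The covers of the sets of the tree. -/
theorem cover {X : Type u} [MetricSpace X] {s t C1 : ℝ} {δ : ℕ → ℝ}
    {P : ℕ → Nd X → Finset (X × ℝ)} (hT : IsTree s t C1 δ P) :
    ∀ (m n : ℕ) (v : Nd X), IsNode s v → v.g ≤ δ n →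
      ∃ (ι : Type u) (_ : Fintype ι) (U : ι → Set X), SS P m n v ⊆ ⋃ i, U i ∧
        (∀ i, ediam (U i) ≤ ENNReal.ofReal (2 * δ (n + m))) ∧
        ∑ i, ediam (U i) ^ t ≤ ENNReal.ofReal ((2 * v.g) ^ t) := by
  classical
  intro m
  induction m with
  | zero =>
    intro n v hv hg
    have h1 : ediam v.E ≤ ENNReal.ofReal (2 * v.g) := by
      refine ediam_le fun x hx y hy => ?_
      rw [edist_dist]
      refine ENNReal.ofReal_le_ofReal ?_
      have h2 := mem_closedBall.1 (hv.sub hx)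
      have h3 := mem_closedBall'.1 (hv.sub hy)
      linarith [dist_triangle x v.y y]
    refine ⟨PUnit, inferInstance, fun _ => v.E, ?_, fun _ => ?_, ?_⟩
    · intro x hx
      exact mem_iUnion.2 ⟨PUnit.unit, hx⟩
    · refine h1.trans (ENNReal.ofReal_le_ofReal ?_)
      rw [add_zero]
      linarith
    · rw [Fintype.sum_unique]
      refine (ENNReal.rpow_le_rpow h1 hT.ht.le).trans (le_of_eq ?_)
      exact ENNReal.ofReal_rpow_of_nonneg (by linarith [hv.pos]) hT.ht.le
  | succ m ih =>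
    intro n v hv _
    have hG := hT.step n v hv
    have hex : ∀ q : {q // q ∈ P n v}, ∃ (ι : Type u) (_ : Fintype ι) (U : ι → Set X),
        SS P m (n + 1) (child v q.1) ⊆ ⋃ i, U i ∧
        (∀ i, ediam (U i) ≤ ENNReal.ofReal (2 * δ (n + 1 + m))) ∧
        ∑ i, ediam (U i) ^ t ≤ ENNReal.ofReal ((2 * q.1.2) ^ t) :=
      fun q => ih (n + 1) (child v q.1) (hG.node q.1 q.2) (hG.le q.1 q.2)
    choose ι hι U hU1 hU2 hU3 using hex
    refine ⟨Σ q : {q // q ∈ P n v}, ι q, inferInstance, fun a => U a.1 a.2, ?_, fun a => ?_, ?_⟩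
    · intro x hx
      have hx' : x ∈ ⋃ q ∈ P n v, SS P m (n + 1) (child v q) := hx
      obtain ⟨q, hq, hxq⟩ := mem_iUnion₂.1 hx'
      obtain ⟨i, hi⟩ := mem_iUnion.1 (hU1 ⟨q, hq⟩ hxq)
      exact mem_iUnion.2 ⟨⟨⟨q, hq⟩, i⟩, hi⟩
    · have h1 := hU2 a.1 a.2
      rwa [show n + 1 + m = n + (m + 1) by ring] at h1
    · rw [Fintype.sum_sigma]
      refine (Finset.sum_le_sum fun q _ => hU3 q).trans ?_
      have h1 : ∀ q ∈ P n v, 0 ≤ (2 * q.2) ^ t := fun q hq =>
        Real.rpow_nonneg (by linarith [hG.adm.pos q hq]) _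
      have h2 : ∑ q : {q // q ∈ P n v}, ENNReal.ofReal ((2 * q.1.2) ^ t) =
          ENNReal.ofReal (∑ q ∈ P n v, (2 * q.2) ^ t) := by
        rw [ENNReal.ofReal_sum_of_nonneg h1]
        exact Finset.sum_coe_sort (P n v) fun q => ENNReal.ofReal ((2 * q.2) ^ t)
      rw [h2]
      refine ENNReal.ofReal_le_ofReal ?_
      have h3 : ∀ q ∈ P n v, (2 * q.2) ^ t = 2 ^ t * q.2 ^ t := fun q hq =>
        Real.mul_rpow zero_le_two (hG.adm.pos q hq).le
      rw [Finset.sum_congr rfl h3, ← Finset.mul_sum, Real.mul_rpow zero_le_two hv.pos.le]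
      refine mul_le_mul_of_nonneg_left ?_ (Real.rpow_nonneg zero_le_two _)
      have h4 := hG.adm.count v.y v.g hv.pos
      rw [Finset.filter_true_of_mem fun q hq => ?_] at h4
      · exact h4
      · exact ⟨hv.sub (hG.node q hq).mem.1, hG.le_g q hq⟩

theorem main (_hT1 : StmtT1.{u}) : StmtT1D.{u} := by
  intro X _ s t C1 δ P hT hδ v hv hg
  borelize X
  have h0 := cover hT
  have h1 : ∀ m : ℕ, ∃ (ι : Type u) (_ : Fintype ι) (U : ι → Set X), SS P m 0 v ⊆ ⋃ i, U i ∧
        (∀ i, ediam (U i) ≤ ENNReal.ofReal (2 * δ (0 + m))) ∧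
        ∑ i, ediam (U i) ^ t ≤ ENNReal.ofReal ((2 * v.g) ^ t) := fun m => h0 m 0 v hv hg
  choose ι hι U hU1 hU2 hU3 using h1
  have hr : Tendsto (fun m => ENNReal.ofReal (2 * δ (0 + m))) atTop (𝓝 0) := by
    have h2 : Tendsto (fun m => 2 * δ (0 + m)) atTop (𝓝 0) := by
      have h3 := hδ.const_mul 2
      rw [mul_zero] at h3
      simpa using h3
    have h4 := (ENNReal.continuous_ofReal.tendsto 0).comp h2
    rw [ENNReal.ofReal_zero] at h4
    exact h4
  have hH := Measure.hausdorffMeasure_le_liminf_sum t (⋂ m, SS P m 0 v)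
    (fun m => ENNReal.ofReal (2 * δ (0 + m))) hr U (Eventually.of_forall hU2)
    (Eventually.of_forall fun m => (iInter_subset _ m).trans (hU1 m))
  have hlim : liminf (fun m => ∑ i, ediam (U m i) ^ t) atTop ≤
      ENNReal.ofReal ((2 * v.g) ^ t) := by
    refine (liminf_le_liminf (Eventually.of_forall hU3)).trans (le_of_eq ?_)
    exact liminf_const _
  have ht : ((t.toNNReal : ℝ≥0) : ℝ) = t := Real.coe_toNNReal t hT.ht.le
  have h5 : Measure.hausdorffMeasure ((t.toNNReal : ℝ≥0) : ℝ) (⋂ m, SS P m 0 v) ≠ ∞ := by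
    rw [ht]
    exact ((hH.trans hlim).trans_lt ENNReal.ofReal_lt_top).ne
  exact dimH_le_of_hausdorffMeasure_ne_top h5

end Pool.Agent.R280.HC.T1D
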