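import Pool.Agent.R280.HC.Stm

set_option autoImplicit false

open Set Metric MeasureTheory Filter Topology TopologicalSpace
open scoped ENNReal NNReal

universe u

namespace Pool.Agent.R280.HC.T2

open Pool.Agent.R280.HC

theorem wpos {X : Type u} [MetricSpace X] (s t C1 δ : ℝ) (hC1 : 1 ≤ C1) (v : Nd X)
    (hv : IsNode s v) (P : Finset (X × ℝ)) (hP : GoodP s t C1 δ v P) :
    0 < ∑ q ∈ P, q.2 ^ t := by
  have h1 : 0 < v.g ^ t := Real.rpow_pos_of_pos hv.pos t
  have h2 := hP.mass
  by_contra hcon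
  push Not at hcon
  have h3 : C1 * ∑ q ∈ P, q.2 ^ t ≤ 0 := mul_nonpos_of_nonneg_of_nonpos (by linarith) hcon
  linarith

theorem weights {X : Type u} [MetricSpace X] (s t C1 δ : ℝ) (hC1 : 1 ≤ C1) (v : Nd X)
    (hv : IsNode s v) (P : Finset (X × ℝ)) (hP : GoodP s t C1 δ v P) :
    ∑ q ∈ P, ENNReal.ofReal (q.2 ^ t / ∑ q' ∈ P, q'.2 ^ t) = 1 := by
  have hW := wpos s t C1 δ hC1 v hv P hP
  rw [← ENNReal.ofReal_sum_of_nonneg]
  · rw [← Finset.sum_div, div_self hW.ne', ENNReal.ofReal_one]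
  · intro q hq
    exact div_nonneg (Real.rpow_nonneg (hP.adm.pos q hq).le t) hW.le

theorem main (hT1 : StmtT1.{u}) : StmtT2.{u} := by
  intro X _ _ _ s t C1 δ P hT m
  induction m with
  | zero =>
    intro n v hv
    refine ⟨?_, ?_⟩
    · show IsProbabilityMeasure (Measure.dirac v.y)
      infer_instance
    · show (Measure.dirac v.y) (v.E)ᶜ = 0
      rw [Measure.dirac_apply' _ hv.cpt.isClosed.measurableSet.compl]
      simp [hv.mem]
  | succ m ih =>
    intro n v hv
    have hP := hT.step n v hv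
    have hw := weights s t C1 _ hT.hC1 v hv (P n v) hP
    refine ⟨⟨?_⟩, ?_⟩
    · show (∑ q ∈ P n v, ENNReal.ofReal (q.2 ^ t / ∑ q' ∈ P n v, q'.2 ^ t) •
        MM t P m (n + 1) (child v q)) univ = 1
      rw [Measure.finsetSum_apply, ← hw]
      apply Finset.sum_congr rfl
      intro q hq
      have := (ih (n + 1) (child v q) (hP.node q hq)).1
      rw [Measure.smul_apply, measure_univ, smul_eq_mul, mul_one]
    · show (∑ q ∈ P n v, ENNReal.ofReal (q.2 ^ t / ∑ q' ∈ P n v, q'.2 ^ t) •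
        MM t P m (n + 1) (child v q)) (SS P (m + 1) n v)ᶜ = 0
      rw [Measure.finsetSum_apply]
      apply Finset.sum_eq_zero
      intro q hq
      have h1 := (ih (n + 1) (child v q) (hP.node q hq)).2
      have h2 : (SS P (m + 1) n v)ᶜ ⊆ (SS P m (n + 1) (child v q))ᶜ := by
        apply compl_subset_compl.2
        show SS P m (n + 1) (child v q) ⊆ ⋃ q ∈ P n v, SS P m (n + 1) (child v q)
        exact subset_biUnion_of_mem (u := fun q => SS P m (n + 1) (child v q)) hq
      rw [Measure.smul_apply, measure_mono_null h2 h1, smul_zero]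

end Pool.Agent.R280.HC.T2
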