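import Pool.Agent.R280.HC.Stm

/-!
# HC, piece T3: upper bound for the measures of balls
-/

set_option autoImplicit false

open Set Metric MeasureTheory Filter Topology TopologicalSpace
open scoped ENNReal NNReal

universe u

namespace Pool.Agent.R280.HC.T3

open Pool.Agent.R280.HC

theorem main : StmtT3.{u} := by
  classical
  intro X _ _ _ s t C1 δ P hT H j
  have ht := hT.ht
  have hC1 := hT.hC1
  have h2t : (0:ℝ) < 2 ^ t := Real.rpow_pos_of_pos (by norm_num) t
  have hK1 : 1 ≤ C1 * ((2:ℝ) ^ t + 1) := by nlinarith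
  generalize hK : C1 * ((2:ℝ) ^ t + 1) = K at hK1 ⊢
  induction j with
  | zero =>
    intro m n v z r hv hg _ hr
    have hp := (H m n v hv).1
    have h1 : (1:ℝ) ≤ (r / v.g) ^ t := by
      apply Real.one_le_rpow _ ht.le
      rw [le_div_iff₀ hv.pos]
      simp only [add_zero] at hr
      linarith
    calc MM t P m n v (closedBall z r) ≤ 1 := prob_le_one
      _ = ENNReal.ofReal 1 := by simp
      _ ≤ _ := ENNReal.ofReal_le_ofReal (by simpa using h1)
  | succ j ih =>
    intro m n v z r hv hg hjm hr
    obtain ⟨m', rfl⟩ : ∃ m', m = m' + 1 := ⟨m - 1, by omega⟩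
    have hG := hT.step n v hv
    have hrpos : 0 < r := lt_of_lt_of_le (hT.δpos _) hr
    have hrt : 0 < r ^ t := Real.rpow_pos_of_pos hrpos t
    have hvg : 0 < v.g ^ t := Real.rpow_pos_of_pos hv.pos t
    have hmass := hG.mass
    generalize hW : ∑ q ∈ P n v, q.2 ^ t = W at hmass
    have hWpos : 0 < W := by
      by_contra hcon
      push Not at hcon
      nlinarith
    have hKj : 1 ≤ K ^ j := one_le_pow₀ hK1
    set a : X × ℝ → ℝ := fun q => (MM t P m' (n+1) (child v q) (closedBall z r)).toReal with ha
    have hprob : ∀ q ∈ P n v, IsProbabilityMeasure (MM t P m' (n+1) (child v q)) :=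
      fun q hq => (H m' (n+1) _ (hG.node q hq)).1
    have ha0 : ∀ q, 0 ≤ a q := fun q => ENNReal.toReal_nonneg
    have ha1 : ∀ q ∈ P n v, a q ≤ 1 := by
      intro q hq
      have := hprob q hq
      have h := ENNReal.toReal_mono (b := 1) (by simp)
        (prob_le_one (μ := MM t P m' (n+1) (child v q)) (s := closedBall z r))
      simpa using h
    have hq0 : ∀ q ∈ P n v, 0 < q.2 := hG.adm.pos
    have ha2 : ∀ q ∈ P n v, q.2 ^ t * a q ≤ K ^ j * r ^ t := by
      intro q hq
      have h1 := ih m' (n+1) (child v q) z r (hG.node q hq) (hG.le q hq) (by omega)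
        (by rw [show n + 1 + j = n + (j + 1) by ring]; exact hr)
      have hqp := hq0 q hq
      have hqt : 0 < q.2 ^ t := Real.rpow_pos_of_pos hqp t
      have h2 : a q ≤ K ^ j * (r / q.2) ^ t := by
        have h3 := ENNReal.toReal_mono ENNReal.ofReal_ne_top h1
        rw [ENNReal.toReal_ofReal (by
          have : 0 ≤ r / (child v q).g := div_nonneg hrpos.le hqp.le
          positivity)] at h3
        exact h3
      rw [Real.div_rpow hrpos.le hqp.le] at h2
      calc q.2 ^ t * a q ≤ q.2 ^ t * (K ^ j * (r ^ t / q.2 ^ t)) := by gcongr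
        _ = K ^ j * r ^ t := by field_simp
    have ha3 : ∀ q ∈ P n v, a q ≠ 0 → ∃ x, dist x z ≤ r ∧ dist x q.1 ≤ q.2 := by
      intro q hq hne
      by_contra hcon
      push Not at hcon
      apply hne
      have h1 : closedBall z r ⊆ ((child v q).E)ᶜ := by
        intro x hx hx2
        have h2 := hcon x hx
        exact absurd (mem_closedBall.1 hx2.2) (not_le.2 h2)
      have h2 := measure_mono_null h1 (H m' (n+1) _ (hG.node q hq)).2
      simp [ha, h2]
    -- the sum
    have hsum : MM t P (m' + 1) n v (closedBall z r)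
        = ENNReal.ofReal (∑ q ∈ P n v, q.2 ^ t / W * a q) := by
      rw [MM]
      rw [Measure.finset_sum_apply]
      rw [ENNReal.ofReal_sum_of_nonneg (fun q hq => by
        have := hq0 q hq
        have := ha0 q
        positivity)]
      refine Finset.sum_congr rfl fun q hq => ?_
      rw [Measure.smul_apply, smul_eq_mul, hW]
      have hqp := hq0 q hq
      rw [ENNReal.ofReal_mul (by positivity)]
      congr 1
      have := hprob q hq
      rw [ha]
      exact (ENNReal.ofReal_toReal (measure_ne_top _ _)).symm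
    rw [hsum]
    apply ENNReal.ofReal_le_ofReal
    have hreal : ∑ q ∈ P n v, q.2 ^ t * a q ≤ 2 ^ t * r ^ t + K ^ j * r ^ t := by
      have hsplit : ∀ q ∈ P n v, q.2 ^ t * a q ≤
          (if q.1 ∈ closedBall z (2 * r) ∧ q.2 ≤ 2 * r then q.2 ^ t else 0) +
          (if a q ≠ 0 ∧ r < q.2 then K ^ j * r ^ t else 0) := by
        intro q hq
        have hqt : 0 < q.2 ^ t := Real.rpow_pos_of_pos (hq0 q hq) t
        have hn1 : (0:ℝ) ≤ (if q.1 ∈ closedBall z (2 * r) ∧ q.2 ≤ 2 * r then q.2 ^ t else 0) := by
          split_ifs <;> positivity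
        have hn2 : (0:ℝ) ≤ (if a q ≠ 0 ∧ r < q.2 then K ^ j * r ^ t else 0) := by
          split_ifs <;> positivity
        by_cases h0 : a q = 0
        · rw [h0, mul_zero]
          rw [h0] at hn2
          exact add_nonneg hn1 hn2
        by_cases h1 : r < q.2
        · have e : (if a q ≠ 0 ∧ r < q.2 then K ^ j * r ^ t else 0) = K ^ j * r ^ t :=
            if_pos ⟨h0, h1⟩
          rw [e]
          have := ha2 q hq
          linarith
        · push Not at h1
          obtain ⟨x, hx1, hx2⟩ := ha3 q hq h0
          have h3 : q.1 ∈ closedBall z (2 * r) := by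
            rw [mem_closedBall]
            have := dist_triangle_left q.1 z x
            linarith
          rw [if_pos ⟨h3, by linarith⟩]
          have h4 : q.2 ^ t * a q ≤ q.2 ^ t * 1 :=
            mul_le_mul_of_nonneg_left (ha1 q hq) hqt.le
          linarith
      refine (Finset.sum_le_sum hsplit).trans ?_
      rw [Finset.sum_add_distrib, ← Finset.sum_filter, ← Finset.sum_filter]
      refine add_le_add ?_ ?_
      · have h5 := hG.adm.count z (2 * r) (by linarith)
        rw [Real.mul_rpow (by norm_num) hrpos.le] at h5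
        convert h5
      · rw [Finset.sum_const, nsmul_eq_mul]
        have hcard : ((P n v).filter fun q => a q ≠ 0 ∧ r < q.2).card ≤ 1 := by
          rw [Finset.card_le_one]
          intro p hp q hq
          rw [Finset.mem_filter] at hp hq
          by_contra hne
          have h6 := hG.adm.sep p hp.1 q hq.1 hne
          obtain ⟨x, hx1, hx2⟩ := ha3 p hp.1 hp.2.1
          obtain ⟨y, hy1, hy2⟩ := ha3 q hq.1 hq.2.1
          have h7 : dist p.1 q.1 ≤ dist p.1 x + dist x z + dist z y + dist y q.1 := by
            have e1 := dist_triangle p.1 x q.1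
            have e2 := dist_triangle x z q.1
            have e3 := dist_triangle z y q.1
            linarith
          rw [dist_comm p.1 x, dist_comm z y] at h7
          have h8 := hp.2.2
          have h9 := hq.2.2
          have h10 := hq0 p hp.1
          have h11 := hq0 q hq.1
          linarith
        have h12 : ((((P n v).filter fun q => a q ≠ 0 ∧ r < q.2).card : ℕ) : ℝ) ≤ 1 := by
          exact_mod_cast hcard
        have h13 : 0 ≤ K ^ j * r ^ t := by positivity
        nlinarith
    have hfin : ∑ q ∈ P n v, q.2 ^ t / W * a q = (∑ q ∈ P n v, q.2 ^ t * a q) / W := by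
      rw [Finset.sum_div]
      exact Finset.sum_congr rfl fun q _ => by ring
    rw [hfin, div_le_iff₀ hWpos, Real.div_rpow hrpos.le hv.pos.le]
    have h14 : (2:ℝ) ^ t * r ^ t + K ^ j * r ^ t ≤ (2 ^ t + 1) * K ^ j * r ^ t := by
      nlinarith [mul_pos h2t hrt, mul_nonneg (sub_nonneg.2 hKj) (mul_pos h2t hrt).le]
    have h15 : (1:ℝ) ≤ C1 * W / v.g ^ t := by
      rw [le_div_iff₀ hvg]; linarith
    have h16 : 0 ≤ (2 ^ t + 1) * K ^ j * r ^ t := by positivity
    calc ∑ q ∈ P n v, q.2 ^ t * a q ≤ (2 ^ t + 1) * K ^ j * r ^ t := hreal.trans h14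
      _ ≤ (2 ^ t + 1) * K ^ j * r ^ t * (C1 * W / v.g ^ t) := le_mul_of_one_le_right h16 h15
      _ = K ^ (j + 1) * (r ^ t / v.g ^ t) * W := by
        rw [pow_succ, ← hK]
        ring

end Pool.Agent.R280.HC.T3
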