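import Pool.Agent.R280.HC.Stm

/-! # T4: the limit measure and the lower bound of the dimension -/

set_option autoImplicit false

open Set Metric MeasureTheory Filter Topology TopologicalSpace
open scoped ENNReal NNReal

universe u

namespace Pool.Agent.R280.HC.T4

open Pool.Agent.R280.HC

theorem key {B : ℝ} (hB : 1 < B) {δ : ℕ → ℝ} (hanti : Antitone δ)
    (hδ : ∀ n, δ (n + 1) ≤ B⁻¹ ^ ((n + 2) ^ 2)) {J : ℕ} (hJ : 1 ≤ J) {R : ℝ} (hR : 0 < R)
    (hRJ : R < δ J) : ∃ j : ℕ, δ j ≤ R ∧ B ^ j ≤ (R⁻¹) ^ (1 / (J : ℝ)) := by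
  have hB0 : 0 < B := zero_lt_one.trans hB
  have hBi0 : 0 ≤ B⁻¹ := (inv_pos.mpr hB0).le
  have hBi1 : B⁻¹ < 1 := inv_lt_one_of_one_lt₀ hB
  have hex : ∃ j, δ j ≤ R := by
    obtain ⟨n, hn⟩ := exists_pow_lt_of_lt_one hR hBi1
    refine ⟨n + 1, (hδ n).trans ?_⟩
    refine le_trans (pow_le_pow_of_le_one hBi0 hBi1.le ?_) hn.le
    nlinarith
  classical
  obtain ⟨j, hj, hmin⟩ : ∃ j, δ j ≤ R ∧ ∀ k < j, ¬ δ k ≤ R :=
    ⟨Nat.find hex, Nat.find_spec hex, fun k hk => Nat.find_min hex hk⟩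
  have hjJ : J < j := by
    by_contra hc
    rw [not_lt] at hc
    exact absurd ((hanti hc).trans hj) (not_le.mpr hRJ)
  obtain ⟨i, rfl⟩ : ∃ i, j = i + 2 := ⟨j - 2, by omega⟩
  refine ⟨i + 2, hj, ?_⟩
  have h1 := hmin (i + 1) (by omega)
  rw [not_le] at h1
  have h2 : R < B⁻¹ ^ ((i + 2) ^ 2) := h1.trans_le (hδ i)
  have h3 : B ^ ((i + 2) ^ 2) ≤ R⁻¹ := by
    rw [inv_pow] at h2
    exact (le_inv_comm₀ hR (by positivity)).mp h2.le
  have hRi : 1 ≤ R⁻¹ := le_trans (one_le_pow₀ hB.le) h3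
  have hj0 : (0 : ℝ) < ((i + 2 : ℕ) : ℝ) := by positivity
  have hJ0 : (0 : ℝ) < (J : ℝ) := by exact_mod_cast hJ
  calc B ^ (i + 2) = (B ^ ((i + 2) ^ 2)) ^ (1 / ((i + 2 : ℕ) : ℝ)) := by
        rw [← Real.rpow_natCast B ((i + 2) ^ 2), ← Real.rpow_mul hB0.le,
          ← Real.rpow_natCast B (i + 2)]
        congr 1
        rw [Nat.cast_pow]
        field_simp
    _ ≤ (R⁻¹) ^ (1 / ((i + 2 : ℕ) : ℝ)) :=
        Real.rpow_le_rpow (by positivity) h3 (by positivity)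
    _ ≤ (R⁻¹) ^ (1 / (J : ℝ)) := by
        refine Real.rpow_le_rpow_of_exponent_le hRi ?_
        refine one_div_le_one_div_of_le hJ0 ?_
        exact_mod_cast hjJ.le

theorem main (hWL : StmtWL.{u}) (hMD : StmtMD.{u}) : StmtT4.{u} := by
  intro X _ _ _ t B g δ ht hB hg hδ0 hanti hδ S hS hSa M hM hMS hball
  obtain ⟨ν, hν, hνS, hνU⟩ := hWL X S hS hSa M hM hMS
  have hpos : 0 < ν (⋂ m, S m) := by
    rw [pos_iff_ne_zero]
    intro h0
    have h1 : ν univ ≤ ν (⋂ m, S m) + ν (⋂ m, S m)ᶜ := by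
      rw [← union_compl_self (⋂ m, S m)]
      exact measure_union_le _ _
    rw [h0, hνS, hν.measure_univ, add_zero] at h1
    exact absurd h1 (not_le.mpr zero_lt_one)
  have claim : ∀ J : ℕ, 1 ≤ J → 1 / (J : ℝ) < t →
      ENNReal.ofReal (t - 1 / (J : ℝ)) ≤ dimH (⋂ m, S m) := by
    intro J hJ hJt
    refine hMD X (⋂ m, S m) ν (t - 1 / (J : ℝ)) (g⁻¹ ^ t * 2 ^ (t - 1 / (J : ℝ))) (δ J / 2)
      (by linarith) (by have := hδ0 J; linarith) ?_ hpos
    intro z r hr hr0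
    have hR : 0 < 2 * r := by linarith
    obtain ⟨j, hj, hBj⟩ := key hB hanti hδ hJ hR (by linarith)
    have h1 : ν (closedBall z r) ≤ ν (ball z (2 * r)) :=
      measure_mono (closedBall_subset_ball (by linarith))
    refine h1.trans (hνU _ isOpen_ball _ ?_)
    filter_upwards [eventually_ge_atTop j] with m hm
    refine (measure_mono ball_subset_closedBall).trans ((hball j m z (2 * r) hm hj).trans ?_)
    refine ENNReal.ofReal_le_ofReal ?_
    calc B ^ j * (2 * r / g) ^ t ≤ ((2 * r)⁻¹) ^ (1 / (J : ℝ)) * (2 * r / g) ^ t :=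
          mul_le_mul_of_nonneg_right hBj (Real.rpow_nonneg (by positivity) _)
      _ = g⁻¹ ^ t * 2 ^ (t - 1 / (J : ℝ)) * r ^ (t - 1 / (J : ℝ)) := by
          rw [div_eq_mul_inv (2 * r) g, Real.mul_rpow hR.le (by positivity), Real.inv_rpow hR.le,
            mul_assoc (g⁻¹ ^ t), ← Real.mul_rpow (by norm_num) hr.le, Real.rpow_sub hR]
          ring
  by_contra hcon
  rw [not_le] at hcon
  obtain ⟨u, hu0, hu1, hu2⟩ := ENNReal.lt_iff_exists_real_btwn.mp hcon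
  have hut : u < t := by
    rw [ENNReal.ofReal_lt_ofReal_iff ht] at hu2
    exact hu2
  obtain ⟨J, hJ⟩ := exists_nat_one_div_lt (show (0 : ℝ) < t - u by linarith)
  have h1 := claim (J + 1) (by omega) (by push_cast; linarith)
  have h2 : ENNReal.ofReal u ≤ ENNReal.ofReal (t - 1 / ((J + 1 : ℕ) : ℝ)) := by
    refine ENNReal.ofReal_le_ofReal ?_
    push_cast
    linarith
  exact absurd (h2.trans h1) (not_le.mpr hu1)

end Pool.Agent.R280.HC.T4
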