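import Pool.Agent.R280.HC.Stm

/-!
# MP_65ee2d_an, piece TR: the limit set of a tree
-/

set_option autoImplicit false

open Set Metric MeasureTheory Filter Topology TopologicalSpace
open scoped ENNReal NNReal

universe u

namespace Pool.Agent.R280.HC.TR

open Pool.Agent.R280.HC

theorem main (hT1 : StmtT1.{u}) (hT1D : StmtT1D.{u}) (hT2 : StmtT2.{u}) (hT3 : StmtT3.{u})
    (hT4 : StmtT4.{u}) : StmtTR.{u} := by
  classical
  intro X _ s t C1 ht hC1 hP v hv
  let _ : MeasurableSpace X := borel X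
  have _ : BorelSpace X := ⟨rfl⟩
  obtain ⟨B, hBdef⟩ : ∃ B : ℝ, B = C1 * (2 ^ t + 1) := ⟨_, rfl⟩
  have h2t : (0 : ℝ) < 2 ^ t := by positivity
  have hB : 1 < B := by
    rw [hBdef]
    nlinarith
  have hB0 : 0 < B := by linarith
  have hBi0 : 0 < B⁻¹ := inv_pos.2 hB0
  have hBi1 : B⁻¹ < 1 := inv_lt_one_of_one_lt₀ hB
  obtain ⟨δ, hδ0, hδs⟩ : ∃ δ : ℕ → ℝ, δ 0 = v.g ∧ ∀ n, δ (n + 1) = min v.g (B⁻¹ ^ ((n + 2) ^ 2)) :=
    ⟨fun n => Nat.casesOn n v.g (fun n => min v.g (B⁻¹ ^ ((n + 2) ^ 2))), rfl, fun _ => rfl⟩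
  have hδpos : ∀ n, 0 < δ n := by
    intro n
    cases n with
    | zero => rw [hδ0]; exact hv.pos
    | succ n => rw [hδs]; exact lt_min hv.pos (by positivity)
  have hδle : ∀ n, δ (n + 1) ≤ B⁻¹ ^ ((n + 2) ^ 2) := fun n => by
    rw [hδs]; exact min_le_right _ _
  have hδanti : Antitone δ := by
    refine antitone_nat_of_succ_le fun n => ?_
    cases n with
    | zero => rw [hδs, hδ0]; exact min_le_left _ _
    | succ n =>
      rw [hδs, hδs]
      refine min_le_min le_rfl ?_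
      refine pow_le_pow_of_le_one hBi0.le hBi1.le ?_
      exact Nat.pow_le_pow_left (by omega) 2
  have hδlim : Tendsto δ atTop (𝓝 0) := by
    rw [← tendsto_add_atTop_iff_nat 1]
    refine squeeze_zero (fun n => (hδpos _).le) (fun n => (hδle n).trans
      (pow_le_pow_of_le_one hBi0.le hBi1.le (show n ≤ (n + 2) ^ 2 by nlinarith)))
      (tendsto_pow_atTop_nhds_zero_of_lt_one hBi0.le hBi1)
  obtain ⟨P, hPt⟩ : ∃ P : ℕ → Nd X → Finset (X × ℝ), ∀ n w, IsNode s w →
      GoodP s t C1 (δ (n + 1)) w (P n w) := by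
    refine ⟨fun n w => if h : IsNode s w then (hP w h (δ (n + 1)) (hδpos _)).choose else ∅, ?_⟩
    intro n w hw
    simp only [dif_pos hw]
    exact (hP w hw (δ (n + 1)) (hδpos _)).choose_spec
  have hTree : IsTree s t C1 δ P := ⟨ht, hC1, hδpos, hPt⟩
  have h1 := hT1 X s t C1 δ P hTree
  have h2 := hT2 X s t C1 δ P hTree
  have hcpt : ∀ m, IsCompact (SS P m 0 v) := fun m => (h1 m 0 v hv).1
  have hanti : Antitone fun m => SS P m 0 v := antitone_nat_of_succ_le fun m => (h1 m 0 v hv).2.2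
  have h3 := hT3 X s t C1 δ P hTree (fun m n w hw => ⟨(h2 m n w hw).1,
    measure_mono_null (compl_subset_compl.2 (h1 m n w hw).2.1) (h2 m n w hw).2⟩)
  have hup : dimH (⋂ m, SS P m 0 v) ≤ ENNReal.ofReal t :=
    hT1D X s t C1 δ P hTree hδlim v hv (le_of_eq hδ0.symm)
  have hlo : ENNReal.ofReal t ≤ dimH (⋂ m, SS P m 0 v) := by
    refine hT4 X t B v.g δ ht hB hv.pos hδpos hδanti hδle (fun m => SS P m 0 v) hcpt hanti
      (fun m => MM t P m 0 v) (fun m => (h2 m 0 v hv).1) (fun m => (h2 m 0 v hv).2) ?_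
    intro j m z r hjm hr
    have := h3 j m 0 v z r hv (le_of_eq hδ0.symm) hjm (by rw [zero_add]; exact hr)
    rw [hBdef]
    exact this
  refine ⟨⋂ m, SS P m 0 v, ?_, ?_, ?_, le_antisymm hup hlo⟩
  · exact (iInter_subset _ 0).trans (h1 0 0 v hv).2.1
  · exact (hcpt 0).of_isClosed_subset (isClosed_iInter fun m => (hcpt m).isClosed) (iInter_subset _ 0)
  · rw [nonempty_iff_ne_empty]
    intro he
    rw [he, dimH_empty] at hlo
    have : 0 < ENNReal.ofReal t := ENNReal.ofReal_pos.2 ht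
    exact absurd hlo (not_le.2 this)

end Pool.Agent.R280.HC.TR
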