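import Pool.Agent.R280.HC.Stm

/-! Piece UC: unions of pieces shrinking to a point depend continuously on the parameter. -/

set_option autoImplicit false

open Set Metric MeasureTheory Filter Topology TopologicalSpace
open scoped ENNReal NNReal

universe u

namespace Pool.Agent.R280.HC.UC

open Pool.Agent.R280.HC

section
variable {K : Type u} [MetricSpace K] [CompactSpace K] {Y : Type}

/-- finite unions of the pieces -/
noncomputable def F (Q : ℕ → Y → NonemptyCompacts K) : ℕ → Y → NonemptyCompacts K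
  | 0, y => Q 0 y
  | m + 1, y => F Q m y ⊔ Q (m + 1) y

theorem mem_F (Q : ℕ → Y → NonemptyCompacts K) (m : ℕ) (y : Y) (x : K) :
    x ∈ (F Q m y : Set K) ↔ ∃ j ≤ m, x ∈ (Q j y : Set K) := by
  induction m with
  | zero =>
    constructor
    · intro h; exact ⟨0, le_rfl, h⟩
    · rintro ⟨j, hj, h⟩
      obtain rfl : j = 0 := by omega
      exact h
  | succ m ih =>
    have e : (F Q (m + 1) y : Set K) = (F Q m y : Set K) ∪ (Q (m + 1) y : Set K) := by
      show ((F Q m y ⊔ Q (m + 1) y : NonemptyCompacts K) : Set K) = _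
      exact NonemptyCompacts.coe_sup _ _
    rw [e, Set.mem_union, ih]
    constructor
    · rintro (⟨j, hj, h⟩ | h)
      · exact ⟨j, by omega, h⟩
      · exact ⟨m + 1, le_rfl, h⟩
    · rintro ⟨j, hj, h⟩
      rcases Nat.lt_or_ge m j with h1 | h1
      · obtain rfl : j = m + 1 := by omega
        exact Or.inr h
      · exact Or.inl ⟨j, h1, h⟩

theorem continuous_F [TopologicalSpace Y] (Q : ℕ → Y → NonemptyCompacts K)
    (hQ : ∀ m, Continuous (Q m)) (m : ℕ) : Continuous (F Q m) := by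
  induction m with
  | zero => exact hQ 0
  | succ m ih => exact ih.sup (hQ (m + 1))

theorem half_le {m j : ℕ} (h : m ≤ j) : ((2 : ℝ)⁻¹ ^ j) ≤ (2 : ℝ)⁻¹ ^ m :=
  pow_le_pow_of_le_one (by norm_num) (by norm_num) h

theorem closed_union (p : K) (Q : ℕ → NonemptyCompacts K) (hp : ∀ m, p ∈ Q m)
    (hs : ∀ m, (Q m : Set K) ⊆ closedBall p ((2 : ℝ)⁻¹ ^ m)) :
    IsClosed (⋃ m, (Q m : Set K)) := by
  apply isClosed_of_closure_subset
  intro x hx
  by_contra hcon
  have hxp : x ≠ p := by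
    rintro rfl
    exact hcon (mem_iUnion.2 ⟨0, hp 0⟩)
  have hδ : 0 < dist x p / 2 := by
    have := dist_pos.2 hxp
    linarith
  obtain ⟨M, hM⟩ := exists_pow_lt_of_lt_one hδ (by norm_num : (2 : ℝ)⁻¹ < 1)
  have hC : IsClosed (⋃ m ∈ Finset.range M, (Q m : Set K)) :=
    isClosed_biUnion_finset fun m _ => (Q m).isCompact.isClosed
  have hxC : x ∉ ⋃ m ∈ Finset.range M, (Q m : Set K) := by
    intro h
    simp only [mem_iUnion] at h
    obtain ⟨m, _, h⟩ := h
    exact hcon (mem_iUnion.2 ⟨m, h⟩)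
  have hnb : ball x (dist x p / 2) ∩ (⋃ m ∈ Finset.range M, (Q m : Set K))ᶜ ∈ 𝓝 x :=
    inter_mem (ball_mem_nhds x hδ) (hC.isOpen_compl.mem_nhds hxC)
  obtain ⟨z, ⟨hz1, hz2⟩, hz3⟩ := mem_closure_iff_nhds.1 hx _ hnb
  obtain ⟨m, hm⟩ := mem_iUnion.1 hz3
  have hMm : M ≤ m := by
    by_contra h
    apply hz2
    simp only [mem_iUnion]
    exact ⟨m, Finset.mem_range.2 (by omega), hm⟩
  have h1 : dist z p ≤ (2 : ℝ)⁻¹ ^ m := hs m hm
  have h2 := half_le hMm
  have h3 : dist z x < dist x p / 2 := hz1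
  have h4 := dist_triangle_left x p z
  linarith

end

/-- Piece UC. -/
theorem main : StmtUC.{u} := by
  intro K _ _ p Y _ Q hQ hp hs
  let Φ : Y → NonemptyCompacts K := fun y =>
    ⟨⟨⋃ m, (Q m y : Set K), (closed_union p (fun m => Q m y) (fun m => hp m y)
      (fun m => hs m y)).isCompact⟩, ⟨p, mem_iUnion.2 ⟨0, hp 0 y⟩⟩⟩
  have hΦ : ∀ y, (Φ y : Set K) = ⋃ m, (Q m y : Set K) := fun y => rfl
  refine ⟨Φ, ?_, hΦ⟩
  have hdist : ∀ m y, dist (Φ y) (F Q m y) ≤ (2 : ℝ)⁻¹ ^ m := by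
    intro m y
    rw [NonemptyCompacts.dist_eq]
    apply hausdorffDist_le_of_mem_dist (by positivity)
    · intro x hx
      rw [hΦ y] at hx
      obtain ⟨j, hj⟩ := mem_iUnion.1 hx
      rcases Nat.lt_or_ge m j with h1 | h1
      · refine ⟨p, (mem_F Q m y p).2 ⟨0, Nat.zero_le _, hp 0 y⟩, ?_⟩
        exact (hs j y hj).trans (half_le h1.le)
      · exact ⟨x, (mem_F Q m y x).2 ⟨j, h1, hj⟩, by rw [dist_self]; positivity⟩
    · intro x hx
      obtain ⟨j, _, hj⟩ := (mem_F Q m y x).1 hx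
      refine ⟨x, ?_, by rw [dist_self]; positivity⟩
      rw [hΦ y]
      exact mem_iUnion.2 ⟨j, hj⟩
  have hunif : TendstoUniformly (fun m y => F Q m y) Φ atTop := by
    rw [Metric.tendstoUniformly_iff]
    intro ε hε
    obtain ⟨M, hM⟩ := exists_pow_lt_of_lt_one hε (by norm_num : (2 : ℝ)⁻¹ < 1)
    filter_upwards [eventually_ge_atTop M] with m hm y
    exact ((hdist m y).trans (half_le hm)).trans_lt hM
  exact hunif.continuous (Frequently.of_forall fun m => continuous_F Q hQ m)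

end Pool.Agent.R280.HC.UC
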