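import Pool.Agent.R280.HC.Stm

/-!
# Project HC, piece WL: weak limits of measures on decreasing compact sets
-/

set_option autoImplicit false

open Set Metric MeasureTheory Filter Topology TopologicalSpace
open scoped ENNReal NNReal

universe u

namespace Pool.Agent.R280.HC.WL

open Pool.Agent.R280.HC

theorem main : StmtWL.{u} := by
  intro X _ _ _ S hS hanti M hMp hM
  have hK : IsCompact (S 0) := hS 0
  have hcK : CompactSpace (S 0) := isCompact_iff_compactSpace.mp hK
  have hemb : MeasurableEmbedding (Subtype.val : S 0 → X) :=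
    MeasurableEmbedding.subtype_coe hK.isClosed.measurableSet
  have hM0 : ∀ m, M m (S 0)ᶜ = 0 := fun m =>
    measure_mono_null (compl_subset_compl.2 (hanti (Nat.zero_le m))) (hM m)
  have hM1 : ∀ m, M m (S 0) = 1 := by
    intro m
    have := hMp m
    exact (prob_compl_eq_zero_iff hK.isClosed.measurableSet).1 (hM0 m)
  let M' : ℕ → ProbabilityMeasure (S 0) := fun m =>
    ⟨(M m).comap Subtype.val, ⟨by
      rw [hemb.comap_apply, image_univ, Subtype.range_coe]
      exact hM1 m⟩⟩
  have hM' : ∀ m (B : Set X), (M' m : Measure (S 0)) (Subtype.val ⁻¹' B) ≤ M m B := by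
    intro m B
    show ((M m).comap Subtype.val) (Subtype.val ⁻¹' B) ≤ M m B
    rw [hemb.comap_apply]
    exact measure_mono (image_preimage_subset _ _)
  obtain ⟨μ, -, hμ⟩ : ∃ μ ∈ (univ : Set (ProbabilityMeasure (S 0))),
      (Filter.map M' (Filter.hyperfilter ℕ : Filter ℕ)) ≤ nhds μ :=
    isCompact_iff_ultrafilter_le_nhds.mp isCompact_univ
      ((Filter.hyperfilter ℕ).map M') (by simp)
  have hlim : Filter.Tendsto M' (Filter.hyperfilter ℕ : Filter ℕ) (nhds μ) := hμ
  have hU : ∀ U : Set X, IsOpen U → ∀ c : ℝ≥0∞, (∀ᶠ m in atTop, M m U ≤ c) →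
      ((μ : Measure (S 0)).map Subtype.val) U ≤ c := by
    intro U hUo c hc
    rw [Measure.map_apply measurable_subtype_coe hUo.measurableSet]
    have hopen : IsOpen ((Subtype.val : S 0 → X) ⁻¹' U) := hUo.preimage continuous_subtype_val
    refine (ProbabilityMeasure.le_liminf_measure_open_of_tendsto hlim hopen).trans ?_
    apply Filter.liminf_le_of_frequently_le'
    apply Filter.Eventually.frequently
    have hev := Nat.hyperfilter_le_atTop hc
    filter_upwards [hev] with m hm
    exact (hM' m U).trans hm
  refine ⟨(μ : Measure (S 0)).map Subtype.val,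
    Measure.isProbabilityMeasure_map measurable_subtype_coe.aemeasurable, ?_, hU⟩
  rw [compl_iInter, measure_iUnion_null_iff]
  intro k
  refine le_antisymm ?_ zero_le
  apply hU _ (hS k).isClosed.isOpen_compl
  filter_upwards [eventually_ge_atTop k] with m hm
  exact (measure_mono_null (compl_subset_compl.2 (hanti hm)) (hM m)).le

end Pool.Agent.R280.HC.WL
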